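import Pool.Agent.H822R2.OWF.Exp

/-!
Finding any preimage.
-/

set_option autoImplicit false

namespace Pool.Agent.H822R2.OWF

open Pool.Agent.H628R3.RO Pool.Agent.H822R2.ESY Pool.Agent.H822R2.ESY.Q
open Pool.Agent.H620R2.Gauge (Gate rd circAct initSt)

/-- The probability that the quantum circuit `C` with oracle `O` finds a preimage of `f x` of the
length of `x`: the first `|x|` qubits of the final state are measured, and the result `x'` must
satisfy `f x' = f x`. -/
noncomputable def inverts (f : List Bool → List Bool) (O : Oracle) (C : List Unit × List Gate)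
    (x : List Bool) : ℝ :=
  ∑ s : Fin C.1.length → Bool, if f ((List.range x.length).map (rd s)) = f x
    then circAct O C.2 (initSt C.1.length) s ^ 2 else 0

theorem inverts_eq (f : List Bool → List Bool) (O : Oracle) (C : List Unit × List Gate) {n : ℕ}
    {x : List Bool} (hx : x ∈ strs n) :
    inverts f O C x = ∑ x' ∈ strs n, if f x' = f x then outp O C n x' else 0 := by
  unfold inverts outp
  have h1 : ∀ x' ∈ strs n, (if f x' = f x then ∑ s : Fin C.1.length → Bool,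
      (if (List.range n).map (rd s) = x' then circAct O C.2 (initSt C.1.length) s ^ 2 else 0)
      else 0) = ∑ s : Fin C.1.length → Bool, (if (List.range n).map (rd s) = x' then
        (if f x' = f x then circAct O C.2 (initSt C.1.length) s ^ 2 else 0) else 0) := by
    intro x' _
    split_ifs
    · rfl
    · simp
  rw [Finset.sum_congr rfl h1, Finset.sum_comm, mem_strs.1 hx]
  refine Finset.sum_congr rfl fun s _ => ?_
  rw [Finset.sum_ite_eq, if_pos (mem_strs.2 (by simp))]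

theorem sum_inverts_le (n : ℕ) (A O : Oracle) (C : List Bool → List Unit × List Gate) {κ : ℝ}
    (hκ : 0 < κ) :
    ∑ x ∈ strs n, inverts (fn A) O (C (fn A x)) x ≤
      κ * ∑ x ∈ strs n, outp O (C (fn A x)) n x + coll n A / κ := by
  obtain ⟨p, hp⟩ : ∃ p : List Bool → List Bool → ℝ, ∀ y x, p y x = outp O (C y) n x :=
    ⟨_, fun _ _ => rfl⟩
  have hp0 : ∀ y x, 0 ≤ p y x := fun y x => by
    rw [hp]
    exact outp_nonneg _ _ _ _
  have hswap : ∀ w : List Bool → ℝ, ∑ x ∈ strs n, ∑ x' ∈ strs n,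
      (if fn A x' = fn A x then w x' * p (fn A x) x' else 0) =
      ∑ x' ∈ strs n, w x' * (mult n A x' * p (fn A x') x') := by
    intro w
    rw [Finset.sum_comm]
    refine Finset.sum_congr rfl fun x' _ => ?_
    unfold mult
    rw [Finset.card_filter]
    push_cast
    rw [Finset.sum_mul, Finset.mul_sum]
    refine Finset.sum_congr rfl fun x _ => ?_
    by_cases h : fn A x' = fn A x
    · rw [if_pos h, if_pos h.symm, h]
      ring
    · rw [if_neg h, if_neg (fun h' => h h'.symm)]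
      ring
  have h1 : ∑ x ∈ strs n, inverts (fn A) O (C (fn A x)) x =
      ∑ x' ∈ strs n, (mult n A x' * p (fn A x') x') := by
    have := hswap (fun _ => 1)
    simp only [one_mul] at this
    rw [← this]
    refine Finset.sum_congr rfl fun x hx => ?_
    rw [inverts_eq _ _ _ hx]
    refine Finset.sum_congr rfl fun x' _ => ?_
    rw [hp]
  have h2 : ∑ x' ∈ strs n, (mult n A x' : ℝ) * (mult n A x' * p (fn A x') x') ≤ coll n A := by
    rw [← hswap (fun x' => (mult n A x' : ℝ))]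
    unfold coll
    push_cast
    refine Finset.sum_le_sum fun x _ => ?_
    have h3 : ∀ x' ∈ strs n, (if fn A x' = fn A x then (mult n A x' : ℝ) * p (fn A x) x' else 0) ≤
        mult n A x * p (fn A x) x' := by
      intro x' _
      by_cases h : fn A x' = fn A x
      · rw [if_pos h]
        have : mult n A x' = mult n A x := by
          unfold mult
          simp only [h]
        rw [this]
      · rw [if_neg h]
        exact mul_nonneg (Nat.cast_nonneg _) (hp0 _ _)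
    refine (Finset.sum_le_sum h3).trans ?_
    rw [← Finset.mul_sum]
    have h4 : ∑ x' ∈ strs n, p (fn A x) x' ≤ 1 := by
      simp only [hp]
      exact sum_outp_le_one _ _ _ _
    exact mul_le_of_le_one_right (Nat.cast_nonneg _) h4
  rw [h1]
  have h5 : ∀ x' ∈ strs n, (mult n A x' : ℝ) * p (fn A x') x' ≤
      κ * p (fn A x') x' + ((mult n A x' : ℝ) * (mult n A x' * p (fn A x') x')) / κ := by
    intro x' _
    have e : κ * p (fn A x') x' + ((mult n A x' : ℝ) * (mult n A x' * p (fn A x') x')) / κ =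
      (κ + (mult n A x' : ℝ) ^ 2 / κ) * p (fn A x') x' := by
      field_simp
    rw [e]
    apply mul_le_mul_of_nonneg_right _ (hp0 _ _)
    have e2 : κ + (mult n A x' : ℝ) ^ 2 / κ = (κ ^ 2 + (mult n A x' : ℝ) ^ 2) / κ := by
      field_simp
    rw [e2, le_div_iff₀ hκ]
    have h6 : (0 : ℝ) ≤ mult n A x' := Nat.cast_nonneg _
    nlinarith [sq_nonneg (κ - (mult n A x' : ℝ))]
  refine (Finset.sum_le_sum h5).trans ?_
  rw [Finset.sum_add_distrib, ← Finset.mul_sum, ← Finset.sum_div]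
  simp only [hp] at h2 ⊢
  have h7 : (∑ x' ∈ strs n, (mult n A x' : ℝ) * (mult n A x' * outp O (C (fn A x')) n x')) / κ ≤
      coll n A / κ := by
    rw [div_le_div_iff_of_pos_right hκ]
    exact h2
  linarith

open scoped Classical in
theorem Sys.avg_inverts (Y : Sys) {n b k : ℕ} (hY : Y.IsRob n b k) (K : Finset (List Bool))
    (hK : ∀ x ∈ strs n, ∀ i < n, pos 0 i x ∈ K) (D : Oracle)
    (C : List Bool → List Unit × List Gate) {T : ℕ}
    (hT : ∀ y ∈ strs n, (C y).2.length ≤ T) :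
    avg K (fun A => if A ∈ Y.G b then ∑ x ∈ strs n, inverts (fn A) (Y.O b D A) (C (fn A x)) x
      else 0) ≤ (4 + 12 * T ^ 2 + 20 * T ^ 2 * k) * 2 ^ n / 2 ^ (n / 8) := by
  set a := n / 4 with ha
  set e := n / 8 with he
  obtain ⟨P, hP⟩ : ∃ P : ℝ, P = 2 ^ a := ⟨_, rfl⟩
  obtain ⟨m, hm⟩ : ∃ m : ℝ, m = 2 ^ (n - 4 * a) := ⟨_, rfl⟩
  obtain ⟨κ, hκ⟩ : ∃ κ : ℝ, κ = 2 ^ e := ⟨_, rfl⟩
  have hP1 : 1 ≤ P := by
    rw [hP]
    exact one_le_pow₀ (by norm_num)
  have hm1 : 1 ≤ m := by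
    rw [hm]
    exact one_le_pow₀ (by norm_num)
  have hκ1 : 1 ≤ κ := by
    rw [hκ]
    exact one_le_pow₀ (by norm_num)
  have hκP : κ ^ 2 ≤ P := by
    rw [hκ, hP, ← pow_mul]
    exact pow_le_pow_right₀ (by norm_num) (by omega)
  have hn : (2 : ℝ) ^ n = P ^ 4 * m := by
    rw [hP, hm, ← pow_mul, ← pow_add]
    congr 1
    omega
  have h1 := Y.avg_outp hY K hK D C hT (μ := P ^ 2 * m) (ν := P ^ 3 * m) (by positivity)
    (by positivity)
  have hk : (0 : ℝ) ≤ k := Nat.cast_nonneg k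
  have h2 : ((2 * k * 2 ^ n + 2 ^ n * (k * (2 * 2 ^ n / (P ^ 2 * m) + P ^ 2 * m))) / (P ^ 3 * m) +
      P ^ 3 * m : ℝ) ≤ (5 * k + 1) * (P ^ 3 * m) := by
    rw [hn]
    have e1 : (2 * (P ^ 4 * m) / (P ^ 2 * m) : ℝ) = 2 * P ^ 2 := by
      field_simp
    rw [e1]
    have e2 : ((2 * k * (P ^ 4 * m) + P ^ 4 * m * (k * (2 * P ^ 2 + P ^ 2 * m))) / (P ^ 3 * m) :
        ℝ) = 2 * k * P + P * (k * (2 * P ^ 2 + P ^ 2 * m)) := by
      field_simp
    rw [e2]
    have h3 : (2 * k * P : ℝ) ≤ 2 * k * (P ^ 3 * m) := by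
      apply mul_le_mul_of_nonneg_left _ (by positivity)
      calc P = P * 1 * 1 := by ring
        _ ≤ P * P ^ 2 * m := by
          have : (1 : ℝ) ≤ P ^ 2 := one_le_pow₀ hP1
          gcongr
        _ = P ^ 3 * m := by ring
    have h4 : P * (k * (2 * P ^ 2 + P ^ 2 * m)) ≤ 3 * k * (P ^ 3 * m) := by
      have h5 : (2 : ℝ) * P ^ 2 ≤ 2 * P ^ 2 * m := le_mul_of_one_le_right (by positivity) hm1
      calc P * (k * (2 * P ^ 2 + P ^ 2 * m)) ≤ P * (k * (2 * P ^ 2 * m + P ^ 2 * m)) := by gcongr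
        _ = _ := by ring
    linarith
  have h3 : (0 : ℝ) ≤ 4 * T ^ 2 := by positivity
  have h4 := h1.trans (add_le_add le_rfl (mul_le_mul_of_nonneg_left h2 h3))
  -- any preimage
  have h5 : avg K (fun A => if A ∈ Y.G b then ∑ x ∈ strs n,
      inverts (fn A) (Y.O b D A) (C (fn A x)) x else 0) ≤
      κ * avg K (fun A => if A ∈ Y.G b then ∑ x ∈ strs n, outp (Y.O b D A) (C (fn A x)) n x
        else 0) + κ⁻¹ * avg K (fun A => (coll n A : ℝ)) := by
    rw [← avg_mul, ← avg_mul, ← avg_add]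
    refine avg_mono K fun A => ?_
    by_cases h : A ∈ Y.G b
    · rw [if_pos h, if_pos h, ← div_eq_inv_mul]
      exact sum_inverts_le n A _ C (by linarith)
    · rw [if_neg h, if_neg h]
      have : (0 : ℝ) ≤ κ⁻¹ * (coll n A : ℝ) := by positivity
      linarith
  have h6 := avg_coll K hK
  have hκ0 : 0 < κ := by linarith
  have h7 : κ⁻¹ * avg K (fun A => (coll n A : ℝ)) ≤ κ⁻¹ * (2 * 2 ^ n) :=
    mul_le_mul_of_nonneg_left h6 (by positivity)
  have h8 := mul_le_mul_of_nonneg_left h4 hκ0.le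
  refine (h5.trans (add_le_add h8 h7)).trans ?_
  rw [← hκ, hn, le_div_iff₀ hκ0, add_mul]
  have e1 : κ⁻¹ * (2 * (P ^ 4 * m)) * κ = 2 * (P ^ 4 * m) := by
    field_simp
  rw [e1]
  have e2 : κ * (2 + 8 * T ^ 2 + 4 * T ^ 2 * ((5 * k + 1) * (P ^ 3 * m))) * κ =
      κ ^ 2 * (2 + 8 * T ^ 2 + 4 * T ^ 2 * ((5 * k + 1) * (P ^ 3 * m))) := by ring
  rw [e2]
  have hPm : 1 ≤ P ^ 3 * m := one_le_mul_of_one_le_of_one_le (one_le_pow₀ hP1) hm1
  have h9 : (2 + 8 * T ^ 2 + 4 * T ^ 2 * ((5 * k + 1) * (P ^ 3 * m)) : ℝ) ≤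
      (2 + 12 * T ^ 2 + 20 * T ^ 2 * k) * (P ^ 3 * m) := by
    have h10 : (2 + 8 * T ^ 2 : ℝ) ≤ (2 + 8 * T ^ 2) * (P ^ 3 * m) :=
      le_mul_of_one_le_right (by positivity) hPm
    nlinarith
  have h10 : κ ^ 2 * (2 + 8 * T ^ 2 + 4 * T ^ 2 * ((5 * k + 1) * (P ^ 3 * m)) : ℝ) ≤
      P * ((2 + 12 * T ^ 2 + 20 * T ^ 2 * k) * (P ^ 3 * m)) :=
    mul_le_mul hκP h9 (by positivity) (by linarith)
  refine (add_le_add h10 le_rfl).trans (le_of_eq ?_)
  ring

end Pool.Agent.H822R2.OWF
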