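import Pool.Agent.H822R2.ESY.Main
import Pool.Agent.H822R2.OWF.Inv

/-!
Sets with Arthur-Merlin proofs are robust.
-/

set_option autoImplicit false

namespace Pool.Agent.H822R2.OWF

open Pool.Agent.NPC Pool.Agent.H822R2.ESY Pool.Agent.H822R2.ESY.Q
open Pool.Agent.H628R3.RO hiding strs mem_strs

/-- `AM` relative to `A`: there are polynomial-time computable `V` and a polynomial `p` such that,
for a string `x` of length `l`, at least two thirds (if `x` is in `L`), at most one third (if `x`
is not in `L`) of the strings `r` of length `p l` have a proof: a string `w` of length at most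
`p l` with `V ((x, r), w) = 1`. -/
def IsAM (A : Oracle) (L : Set (List Bool)) : Prop :=
  ∃ (V : List Bool → List Bool) (p : Polynomial ℕ), IsFP A V ∧ ∀ x : List Bool,
    (x ∈ L → 2 * 2 ^ p.eval x.length ≤ 3 * {r : List Bool | r.length = p.eval x.length ∧
      ∃ w : List Bool, w.length ≤ p.eval x.length ∧ V (pairBits (pairBits x r) w) = [true]}.ncard) ∧
    (x ∉ L → 3 * {r : List Bool | r.length = p.eval x.length ∧
      ∃ w : List Bool, w.length ≤ p.eval x.length ∧
        V (pairBits (pairBits x r) w) = [true]}.ncard ≤ 2 ^ p.eval x.length)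

/-- the random string `r` has a proof -/
def Acc (V : Alg) (p : Polynomial ℕ) (D : Oracle) (q r : List Bool) (A : Oracle) : Prop :=
  ∃ w : List Bool, w.length ≤ p.eval q.length ∧
    V.out (join A D) (pairBits (pairBits q r) w) = some [true]

open scoped Classical in
/-- the number of accepted random strings -/
noncomputable def cnt (V : Alg) (p : Polynomial ℕ) (D : Oracle) (q : List Bool) (A : Oracle) : ℕ :=
  ((strs (p.eval q.length)).filter (fun r => Acc V p D q r A)).card

/-- at least `j` fifteenths of the random strings are accepted -/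
def lev (V : Alg) (p : Polynomial ℕ) (D : Oracle) (j : ℕ) (q : List Bool) (A : Oracle) : Prop :=
  j * 2 ^ p.eval q.length ≤ 15 * cnt V p D q A

/-- the bound for the number of questions -/
noncomputable def Pb (V : Alg) (p : Polynomial ℕ) (b : ℕ) : ℕ :=
  V.p.eval (2 * (2 * b + 1 + p.eval b) + 1 + p.eval b)

theorem len_bound {p : Polynomial ℕ} {b : ℕ} {q r w : List Bool} (hq : q.length ≤ b)
    (hr : r.length = p.eval q.length) (hw : w.length ≤ p.eval q.length) :
    (pairBits (pairBits q r) w).length ≤ 2 * (2 * b + 1 + p.eval b) + 1 + p.eval b := by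
  have := eval_mono p hq
  rw [length_pairBits, length_pairBits, hr]
  omega

open scoped Classical in
theorem acc_touch (V : Alg) (p : Polynomial ℕ) (D : Oracle) {n b : ℕ} {q r : List Bool}
    (hq : q.length ≤ b) (hr : r.length = p.eval q.length) {A : Oracle} (hA : Acc V p D q r A) :
    ∃ T : Finset (List Bool), T ⊆ strs n ∧ T.card ≤ Pb V p b ∧ ∀ x ∈ strs n, x ∉ T →
      ∀ v : List Bool, Acc V p D q r (setv x v A) := by
  obtain ⟨w, hw, hV⟩ := hA
  obtain ⟨qb, h⟩ := V.out_local
  obtain ⟨Q, hQ, -, hQ'⟩ := h (join A D) (pairBits (pairBits q r) w)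
  refine ⟨(strs n).filter (fun x => ∃ i, false :: pos 0 i x ∈ Q), Finset.filter_subset _ _, ?_,
    fun x hx hxT v => ⟨w, hw, ?_⟩⟩
  · have h1 : ∀ x ∈ (strs n).filter (fun x => ∃ i, false :: pos 0 i x ∈ Q),
        ∃ u ∈ Q, ∃ i, u = false :: pos 0 i x := by
      intro x hx
      obtain ⟨-, i, hi⟩ := Finset.mem_filter.1 hx
      exact ⟨_, hi, i, rfl⟩
    choose! f hf using h1
    refine le_trans (Finset.card_le_card_of_injOn f (fun x hx => (hf x hx).1) ?_)
      (hQ.trans (eval_mono _ (len_bound hq hr hw)))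
    intro x hx x' hx' he
    obtain ⟨-, i, h4⟩ := hf x hx
    obtain ⟨-, i', h5⟩ := hf x' hx'
    rw [he, h5] at h4
    exact (pos_inj (List.cons.inj h4).2).2.2.symm
  · rw [hQ', hV]
    intro u hu
    match u, hu with
    | [], _ => rfl
    | true :: z, _ => rfl
    | false :: z, hu =>
      show setv x v A z = A z
      apply setv_of_ne
      rintro i - rfl
      exact hxT (Finset.mem_filter.2 ⟨hx, i, hu⟩)

open scoped Classical in
theorem rob_lev (V : Alg) (p : Polynomial ℕ) (D : Oracle) (j n : ℕ) {b k : ℕ}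
    (hk : 15 * Pb V p b ≤ k) {q : List Bool} (hq : q.length ≤ b) :
    Rob n k (lev V p D (j + 1) q) (lev V p D j q) := by
  intro A hA
  obtain ⟨m, hm⟩ : ∃ m, m = p.eval q.length := ⟨_, rfl⟩
  obtain ⟨S, hS⟩ : ∃ S, S = (strs m).filter (fun r => Acc V p D q r A) := ⟨_, rfl⟩
  have h1 : ∀ r, r ∈ S → ∃ T : Finset (List Bool), T ⊆ strs n ∧ T.card ≤ Pb V p b ∧
      ∀ x ∈ strs n, x ∉ T → ∀ v : List Bool, Acc V p D q r (setv x v A) := by
    intro r hr
    rw [hS] at hr
    obtain ⟨hr1, hr2⟩ := Finset.mem_filter.1 hr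
    exact acc_touch V p D hq (by rw [mem_strs.1 hr1, hm]) hr2
  choose! T hT1 hT2 hT3 using h1
  have hSc : S.card ≤ 2 ^ m := by
    rw [← card_strs m, hS]
    exact Finset.card_filter_le _ _
  refine ⟨(strs n).filter (fun x => 2 ^ m < 15 * (S.filter (fun r => x ∈ T r)).card), ?_,
    fun x hx hxT v _ => ?_⟩
  · set U := (strs n).filter (fun x => 2 ^ m < 15 * (S.filter (fun r => x ∈ T r)).card) with hU
    have h2 : U.card * 2 ^ m ≤ (15 * Pb V p b) * 2 ^ m := by
      calc U.card * 2 ^ m = ∑ _x ∈ U, 2 ^ m := by rw [Finset.sum_const, smul_eq_mul]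
        _ ≤ ∑ x ∈ U, 15 * (S.filter (fun r => x ∈ T r)).card :=
          Finset.sum_le_sum fun x hx => (Finset.mem_filter.1 hx).2.le
        _ ≤ ∑ x ∈ strs n, 15 * (S.filter (fun r => x ∈ T r)).card :=
          Finset.sum_le_sum_of_subset (Finset.filter_subset _ _)
        _ = 15 * ∑ r ∈ S, ((strs n).filter (fun x => x ∈ T r)).card := by
          rw [← Finset.mul_sum]
          congr 1
          simp only [Finset.card_filter]
          rw [Finset.sum_comm]
        _ ≤ 15 * ∑ _r ∈ S, Pb V p b := by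
          refine Nat.mul_le_mul_left _ (Finset.sum_le_sum fun r hr => ?_)
          refine (Finset.card_le_card ?_).trans (hT2 r hr)
          intro x hx
          exact (Finset.mem_filter.1 hx).2
        _ = 15 * (S.card * Pb V p b) := by rw [Finset.sum_const, smul_eq_mul]
        _ ≤ 15 * (2 ^ m * Pb V p b) :=
          Nat.mul_le_mul_left _ (Nat.mul_le_mul_right _ hSc)
        _ = _ := by ring
    exact (Nat.le_of_mul_le_mul_right h2 (by positivity)).trans hk
  · unfold lev at hA ⊢
    rw [← hm] at hA ⊢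
    have h2 : 15 * (S.filter (fun r => x ∈ T r)).card ≤ 2 ^ m := by
      by_contra h3
      exact hxT (Finset.mem_filter.2 ⟨hx, not_le.1 h3⟩)
    have h3 : cnt V p D q A = S.card := by
      unfold cnt
      rw [← hm, hS]
    have h4 : S.card ≤ (S.filter (fun r => x ∈ T r)).card + cnt V p D q (setv x v A) := by
      rw [← Finset.card_filter_add_card_filter_not (s := S) (fun r => x ∈ T r)]
      refine Nat.add_le_add_left (Finset.card_le_card ?_) _
      intro r hr
      obtain ⟨hr1, hr2⟩ := Finset.mem_filter.1 hr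
      rw [← hm]
      refine Finset.mem_filter.2 ⟨?_, hT3 r hr1 x hx hr2 v⟩
      rw [hS] at hr1
      exact (Finset.mem_filter.1 hr1).1
    rw [h3] at hA
    have h5 : (j + 1) * 2 ^ m = j * 2 ^ m + 2 ^ m := by ring
    omega

/-- the system given by two verifiers -/
def sys (V₁ : Alg) (p₁ : Polynomial ℕ) (V₀ : Alg) (p₀ : Polynomial ℕ) (D : Oracle) : Sys where
  a := lev V₁ p₁ D 10
  a' := lev V₁ p₁ D 9
  a'' := lev V₁ p₁ D 8
  r := lev V₀ p₀ D 10
  r' := lev V₀ p₀ D 9
  r'' := lev V₀ p₀ D 8

theorem sys_rob (V₁ : Alg) (p₁ : Polynomial ℕ) (V₀ : Alg) (p₀ : Polynomial ℕ) (D : Oracle)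
    (n b : ℕ) : (sys V₁ p₁ V₀ p₀ D).IsRob n b (15 * (Pb V₁ p₁ b + Pb V₀ p₀ b)) where
  ha _ hq := rob_lev V₁ p₁ D 9 n (by omega) hq
  ha' _ hq := rob_lev V₁ p₁ D 8 n (by omega) hq
  hr _ hq := rob_lev V₀ p₀ D 9 n (by omega) hq
  hr' _ hq := rob_lev V₀ p₀ D 8 n (by omega) hq

/-- the bound for the lengths of the questions -/
noncomputable def Lb (V : Alg) (p : Polynomial ℕ) (b : ℕ) : ℕ :=
  (bnd V).eval (2 * (2 * b + 1 + p.eval b) + 1 + p.eval b)

theorem lev_congr (V : Alg) (p : Polynomial ℕ) (D : Oracle) (j : ℕ) {b R : ℕ}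
    (hR : Lb V p b ≤ R) {q : List Bool} (hq : q.length ≤ b) {A A' : Oracle}
    (hA : ∀ u : List Bool, u.length ≤ R → A u = A' u) :
    lev V p D j q A ↔ lev V p D j q A' := by
  unfold lev cnt
  have h1 : ∀ r ∈ strs (p.eval q.length), Acc V p D q r A ↔ Acc V p D q r A' := by
    intro r hr
    unfold Acc
    refine exists_congr fun w => and_congr_right fun hw => ?_
    rw [bnd_spec V (join A D) (join A' D) _ _ (len_bound hq (mem_strs.1 hr) hw)]
    intro z hz
    match z, hz with
    | [], _ => rfl
    | true :: v, _ => rfl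
    | false :: v, hz =>
      simp only [List.length_cons] at hz
      apply hA
      unfold Lb at hR
      omega
  classical
  have h2 : (strs (p.eval q.length)).filter (fun r => Acc V p D q r A) =
      (strs (p.eval q.length)).filter (fun r => Acc V p D q r A') := Finset.filter_congr h1
  have h3 := congrArg Finset.card h2
  constructor
  · intro h
    refine h.trans (le_of_eq ?_)
    congr 1
  · intro h
    refine h.trans (le_of_eq ?_)
    congr 1
    symm
    exact h3

theorem isFP_fn (A : Oracle) : IsFP A (fn A) := by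
  have h := IsFP.tt (A := A) (Q := fun x => asks x.length 0 x)
    (H := fun p => p.2) ?_ (Poly.snd Poly.id)
  · have e : fn A = fun x => (asks x.length 0 x).map A := by
      funext x
      simp [fn, asks]
    rw [e]
    exact h
  · exact p_asks (UPoly.length Poly.id) (UPoly.const 0) Poly.id

end Pool.Agent.H822R2.OWF
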