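import Pool.Agent.H628R3.RO.M2
import Pool.Agent.H822R2.ESY.Core

/-!
Averages over the oracles contained in a finite set of strings.
-/

set_option autoImplicit false

namespace Pool.Agent.H822R2.OWF

open MeasureTheory Pool.Agent.H628R3.RO Pool.Agent.H822R2.ESY

/-- the oracle which contains exactly the strings in `J` -/
def orc (J : Finset (List Bool)) : Oracle := fun u => decide (u ∈ J)

/-- the average over the oracles contained in `K` -/
noncomputable def avg (K : Finset (List Bool)) (Φ : Oracle → ℝ) : ℝ :=
  (∑ J ∈ K.powerset, Φ (orc J)) / 2 ^ K.card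

theorem avg_mono (K : Finset (List Bool)) {Φ Ψ : Oracle → ℝ} (h : ∀ A, Φ A ≤ Ψ A) :
    avg K Φ ≤ avg K Ψ := by
  unfold avg
  gcongr with J hJ
  exact h _

theorem avg_add (K : Finset (List Bool)) (Φ Ψ : Oracle → ℝ) :
    avg K (fun A => Φ A + Ψ A) = avg K Φ + avg K Ψ := by
  unfold avg
  rw [Finset.sum_add_distrib, add_div]

theorem avg_mul (K : Finset (List Bool)) (c : ℝ) (Φ : Oracle → ℝ) :
    avg K (fun A => c * Φ A) = c * avg K Φ := by
  unfold avg
  rw [← Finset.mul_sum, mul_div_assoc]

theorem avg_const (K : Finset (List Bool)) (c : ℝ) : avg K (fun _ => c) = c := by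
  unfold avg
  rw [Finset.sum_const, Finset.card_powerset, nsmul_eq_mul]
  push_cast
  field_simp

theorem avg_sum {ι : Type*} (K : Finset (List Bool)) (I : Finset ι) (Φ : ι → Oracle → ℝ) :
    avg K (fun A => ∑ i ∈ I, Φ i A) = ∑ i ∈ I, avg K (Φ i) := by
  unfold avg
  rw [Finset.sum_comm, ← Finset.sum_div]

theorem avg_nonneg (K : Finset (List Bool)) {Φ : Oracle → ℝ} (h : ∀ A, 0 ≤ Φ A) :
    0 ≤ avg K Φ := by
  unfold avg
  exact div_nonneg (Finset.sum_nonneg fun J _ => h _) (by positivity)

/-- tossing the coin of one string again -/
theorem avg_upd (K : Finset (List Bool)) {u : List Bool} (hu : u ∈ K) (Φ : Oracle → ℝ) :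
    avg K Φ = (avg K (fun A => Φ (Function.update A u true)) +
      avg K (fun A => Φ (Function.update A u false))) / 2 := by
  classical
  obtain ⟨K', hK', rfl⟩ : ∃ K', u ∉ K' ∧ K = insert u K' :=
    ⟨K.erase u, Finset.notMem_erase _ _, (Finset.insert_erase hu).symm⟩
  have h1 : ∀ J : Finset (List Bool), orc (insert u J) = Function.update (orc J) u true := by
    intro J
    funext v
    by_cases hv : v = u
    · subst hv
      simp [orc]
    · simp [orc, hv]
  have h2 : ∀ J ∈ K'.powerset, orc J = Function.update (orc J) u false := by
    intro J hJ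
    funext v
    by_cases hv : v = u
    · subst hv
      have : v ∉ J := fun h => hK' (Finset.mem_powerset.1 hJ h)
      simp [orc, this]
    · simp [hv]
  unfold avg
  rw [Finset.sum_powerset_insert hK', Finset.sum_powerset_insert hK',
    Finset.sum_powerset_insert hK']
  have e1 : ∑ J ∈ K'.powerset, Φ (orc J) =
      ∑ J ∈ K'.powerset, Φ (Function.update (orc J) u false) :=
    Finset.sum_congr rfl fun J hJ => by rw [← h2 J hJ]
  have e2 : ∑ J ∈ K'.powerset, Φ (orc (insert u J)) =
      ∑ J ∈ K'.powerset, Φ (Function.update (orc J) u true) :=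
    Finset.sum_congr rfl fun J _ => by rw [h1]
  have e3 : ∀ b : Bool, ∑ J ∈ K'.powerset, Φ (Function.update (orc (insert u J)) u b) =
      ∑ J ∈ K'.powerset, Φ (Function.update (orc J) u b) := fun b =>
    Finset.sum_congr rfl fun J _ => by rw [h1, Function.update_idem]
  rw [e1, e2, e3, e3]
  ring

/-! ## The probability -/

/-- the oracle which is `J` inside `K` and `A` outside -/
def merge (K J : Finset (List Bool)) (A : Oracle) : Oracle :=
  fun u => if u ∈ K then decide (u ∈ J) else A u

theorem measurable_merge (K J : Finset (List Bool)) : Measurable (merge K J) := by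
  refine measurable_pi_lambda _ fun x => ?_
  unfold merge
  by_cases hx : x ∈ K
  · simp only [hx, if_true]
    exact measurable_const
  · simp only [hx, if_false]
    exact measurable_pi_apply x

theorem prob_upd2 (u : List Bool) {S : Set Oracle} (hS : MeasurableSet S) :
    prob S = (prob ((fun A : Oracle => Function.update A u true) ⁻¹' S) +
      prob ((fun A : Oracle => Function.update A u false) ⁻¹' S)) / 2 := by
  have h1 : randomOracle S = 2⁻¹ * randomOracle ((fun A : Oracle => Function.update A u true) ⁻¹' S)
      + 2⁻¹ * randomOracle ((fun A : Oracle => Function.update A u false) ⁻¹' S) := by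
    conv_lhs => rw [← randomOracle_eq_upd u]
    rw [Measure.add_apply, Measure.smul_apply, Measure.smul_apply,
      Measure.map_apply (measurable_upd u true) hS, Measure.map_apply (measurable_upd u false) hS]
    rfl
  unfold prob Measure.real
  rw [h1, ENNReal.toReal_add, ENNReal.toReal_mul, ENNReal.toReal_mul]
  · simp
    ring
  · exact ENNReal.mul_ne_top (by simp) (measure_ne_top _ _)
  · exact ENNReal.mul_ne_top (by simp) (measure_ne_top _ _)

theorem prob_merge (K : Finset (List Bool)) {S : Set Oracle} (hS : MeasurableSet S) :
    prob S = (∑ J ∈ K.powerset, prob (merge K J ⁻¹' S)) / 2 ^ K.card := by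
  classical
  induction K using Finset.induction_on generalizing S with
  | empty =>
    have : merge ∅ ∅ ⁻¹' S = S := by
      ext A
      have : merge ∅ ∅ A = A := by
        funext u
        simp [merge]
      simp [this]
    simp [this]
  | insert u K hu ih =>
    rw [Finset.sum_powerset_insert hu, Finset.card_insert_of_notMem hu]
    have h1 : ∀ b, MeasurableSet ((fun A : Oracle => Function.update A u b) ⁻¹' S) := fun b =>
      measurable_upd u b hS
    have e1 : ∑ J ∈ K.powerset, prob (merge (insert u K) J ⁻¹' S) =
        ∑ J ∈ K.powerset, prob (merge K J ⁻¹' ((fun A : Oracle => Function.update A u false) ⁻¹' S)) := by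
      refine Finset.sum_congr rfl fun J hJ => ?_
      congr 1
      ext A
      have : merge (insert u K) J A = Function.update (merge K J A) u false := by
        funext v
        by_cases hv : v = u
        · subst hv
          have : v ∉ J := fun h => hu (Finset.mem_powerset.1 hJ h)
          simp [merge, this]
        · simp [merge, hv]
      simp only [Set.mem_preimage, this]
    have e2 : ∑ J ∈ K.powerset, prob (merge (insert u K) (insert u J) ⁻¹' S) =
        ∑ J ∈ K.powerset, prob (merge K J ⁻¹' ((fun A : Oracle => Function.update A u true) ⁻¹' S)) := by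
      refine Finset.sum_congr rfl fun J hJ => ?_
      congr 1
      ext A
      have : merge (insert u K) (insert u J) A = Function.update (merge K J A) u true := by
        funext v
        by_cases hv : v = u
        · subst hv
          simp [merge]
        · simp [merge, hv]
      simp only [Set.mem_preimage, this]
    rw [e1, e2, prob_upd2 u hS, ih (h1 true), ih (h1 false), pow_succ]
    field_simp
    ring

open scoped Classical in
theorem prob_eq_avg {K : Finset (List Bool)} {S : Set Oracle} (hS : Loc (K : Set (List Bool)) S) :
    prob S = avg K (fun A => if A ∈ S then 1 else 0) := by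
  rw [prob_merge K (measurableSet_of_loc K.finite_toSet hS)]
  unfold avg
  congr 1
  refine Finset.sum_congr rfl fun J hJ => ?_
  have h1 : ∀ A, merge K J A ∈ S ↔ orc J ∈ S := by
    intro A
    apply hS
    intro u hu
    simp only [Finset.mem_coe] at hu
    simp [merge, orc, hu]
  show prob (merge K J ⁻¹' S) = if orc J ∈ S then (1 : ℝ) else 0
  by_cases h2 : orc J ∈ S
  · rw [if_pos h2]
    have h3 : merge K J ⁻¹' S = Set.univ := by
      ext A
      simp only [Set.mem_preimage, Set.mem_univ, iff_true]
      exact (h1 A).2 h2
    rw [h3]
    unfold prob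
    simp
  · rw [if_neg h2]
    have h3 : merge K J ⁻¹' S = ∅ := by
      ext A
      simp only [Set.mem_preimage, Set.mem_empty_iff_false, iff_false]
      exact fun h => h2 ((h1 A).1 h)
    rw [h3]
    unfold prob
    simp

end Pool.Agent.H822R2.OWF
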