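import Pool.Agent.H822R2.OWF.Hyb

/-!
The core of the proof, for a fixed oracle and a fixed value.
-/

set_option autoImplicit false

namespace Pool.Agent.H822R2.OWF

open Pool.Agent.H628R3.RO Pool.Agent.H822R2.ESY Pool.Agent.H822R2.ESY.Q
open Pool.Agent.H620R2.Gauge (Gate rd circAct initSt)

/-- if `φ` holds then `φ'` holds after any change of the value in one place, except for few
places -/
def Rob (n k : ℕ) (φ φ' : Oracle → Prop) : Prop :=
  ∀ A, φ A → ∃ T : Finset (List Bool), T.card ≤ k ∧ ∀ x ∈ strs n, x ∉ T →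
    ∀ v : List Bool, v.length = n → φ' (setv x v A)

/-- the predicates given by the two verifiers -/
structure Sys where
  /-- acceptance, first verifier: sure, nearly sure, likely -/
  (a a' a'' : List Bool → Oracle → Prop)
  /-- acceptance, second verifier: sure, nearly sure, likely -/
  (r r' r'' : List Bool → Oracle → Prop)

/-- robustness of the system on the strings of length at most `b` -/
structure Sys.IsRob (Y : Sys) (n b k : ℕ) : Prop where
  ha : ∀ q : List Bool, q.length ≤ b → Rob n k (Y.a q) (Y.a' q)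
  ha' : ∀ q : List Bool, q.length ≤ b → Rob n k (Y.a' q) (Y.a'' q)
  hr : ∀ q : List Bool, q.length ≤ b → Rob n k (Y.r q) (Y.r' q)
  hr' : ∀ q : List Bool, q.length ≤ b → Rob n k (Y.r' q) (Y.r'' q)

/-- the oracles for which exactly one of the verifiers accepts -/
def Sys.G (Y : Sys) (b : ℕ) : Set Oracle :=
  {A | ∀ q : List Bool, q.length ≤ b → (Y.a q A ∧ ¬ Y.r'' q A) ∨ (Y.r q A ∧ ¬ Y.a'' q A)}

/-- the oracles for which, for some string, both verifiers accept -/
def Sys.E (Y : Sys) (b : ℕ) : Set Oracle :=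
  {A | ∃ q : List Bool, q.length ≤ b ∧ Y.a' q A ∧ Y.r' q A}

open scoped Classical in
/-- the language, for the strings of length at most `b` -/
noncomputable def Sys.K (Y : Sys) (b : ℕ) (A : Oracle) : Oracle :=
  fun q => decide (q.length ≤ b ∧ Y.a q A)

open scoped Classical in
/-- the number of pairs of places -/
noncomputable def Sys.W (Y : Sys) (n b : ℕ) (y : List Bool) (A : Oracle) : ℕ :=
  ((strs n ×ˢ strs n).filter (fun p => p.1 ≠ p.2 ∧ setv p.1 y A ∈ Y.G b ∧
    setv p.2 y (setv p.1 y A) ∈ Y.E b)).card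

/-- the places where the value can be changed so that nothing is wrong -/
def Sys.Q (Y : Sys) (n b : ℕ) (A : Oracle) (x : List Bool) : Prop :=
  ∃ v : List Bool, v.length = n ∧ setv x v A ∈ Y.G b

open scoped Classical in
theorem Sys.card_Q (Y : Sys) {n b k : ℕ} (hY : Y.IsRob n b k) {A : Oracle} (hA : A ∈ Y.E b) :
    ((strs n).filter (Y.Q n b A)).card ≤ 2 * k := by
  obtain ⟨q, hq, h1, h2⟩ := hA
  obtain ⟨T, hT, hT'⟩ := hY.ha' q hq A h1
  obtain ⟨U, hU, hU'⟩ := hY.hr' q hq A h2
  have h3 : (strs n).filter (Y.Q n b A) ⊆ T ∪ U := by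
    intro x hx
    obtain ⟨hx1, v, hv, hx2⟩ := Finset.mem_filter.1 hx
    by_contra h4
    rw [Finset.mem_union, not_or] at h4
    rcases hx2 q hq with h5 | h5
    · exact h5.2 (hU' x hx1 h4.2 v hv)
    · exact h5.2 (hT' x hx1 h4.1 v hv)
  have h4 := Finset.card_le_card h3
  have h5 := Finset.card_union_le T U
  omega

open scoped Classical in
theorem Sys.count (Y : Sys) {n b k : ℕ} (hY : Y.IsRob n b k) (A : Oracle) {y : List Bool}
    (hy : y.length = n) {q : List Bool} (hq : q.length ≤ b) {I : Finset (List Bool)}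
    (hI : I = (strs n).filter (fun x => setv x y A ∈ Y.G b)) :
    (I.filter (fun x => Y.K b (setv x y A) q = true)).card *
      (I.filter (fun x => Y.K b (setv x y A) q = false)).card ≤
      Y.W n b y A + 2 * k * 2 ^ n := by
  set I1 := I.filter (fun x => Y.K b (setv x y A) q = true) with hI1
  set I0 := I.filter (fun x => Y.K b (setv x y A) q = false) with hI0
  have hX : ∀ x ∈ I, x ∈ strs n ∧ setv x y A ∈ Y.G b := by
    intro x hx
    rw [hI] at hx
    exact Finset.mem_filter.1 hx
  have h1 : ∀ x, x ∈ I1 → ∃ T : Finset (List Bool), T.card ≤ k ∧ ∀ x' ∈ strs n, x' ∉ T →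
      Y.a' q (setv x' y (setv x y A)) := by
    intro x hx
    obtain ⟨hx1, hx2⟩ := Finset.mem_filter.1 hx
    unfold Sys.K at hx2
    rw [decide_eq_true_iff] at hx2
    obtain ⟨T, hT, hT'⟩ := hY.ha q hq _ hx2.2
    exact ⟨T, hT, fun x' hx' hxT => hT' x' hx' hxT y hy⟩
  have h0 : ∀ x, x ∈ I0 → ∃ T : Finset (List Bool), T.card ≤ k ∧ ∀ x' ∈ strs n, x' ∉ T →
      Y.r' q (setv x' y (setv x y A)) := by
    intro x hx
    obtain ⟨hx1, hx2⟩ := Finset.mem_filter.1 hx
    unfold Sys.K at hx2
    rw [decide_eq_false_iff_not] at hx2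
    have hx3 : Y.r q (setv x y A) := by
      rcases (hX x hx1).2 q hq with h | h
      · exact absurd ⟨hq, h.1⟩ hx2
      · exact h.1
    obtain ⟨T, hT, hT'⟩ := hY.hr q hq _ hx3
    exact ⟨T, hT, fun x' hx' hxT => hT' x' hx' hxT y hy⟩
  choose! T1 hT1 hT1' using h1
  choose! T0 hT0 hT0' using h0
  rw [← Finset.card_product]
  have hsub : I1 ×ˢ I0 ⊆ ((strs n ×ˢ strs n).filter (fun p => p.1 ≠ p.2 ∧ setv p.1 y A ∈ Y.G b ∧
      setv p.2 y (setv p.1 y A) ∈ Y.E b)) ∪ ((I1.biUnion (fun x => (T1 x).image (fun x' => (x, x'))))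
      ∪ (I0.biUnion (fun x' => (T0 x').image (fun x => (x, x'))))) := by
    rintro ⟨x, x'⟩ hp
    obtain ⟨hx, hx'⟩ := Finset.mem_product.1 hp
    simp only at hx hx'
    have e1 := Finset.mem_filter.1 hx
    have e0 := Finset.mem_filter.1 hx'
    have hne : x ≠ x' := by
      rintro rfl
      rw [e1.2] at e0
      exact absurd e0.2 (by simp)
    simp only [Finset.mem_union, Finset.mem_filter, Finset.mem_product, Finset.mem_biUnion,
      Finset.mem_image, Prod.mk.injEq]
    by_cases h2 : x' ∈ T1 x
    · exact Or.inr (Or.inl ⟨x, hx, x', h2, rfl, rfl⟩)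
    by_cases h3 : x ∈ T0 x'
    · exact Or.inr (Or.inr ⟨x', hx', x, h3, rfl, rfl⟩)
    left
    refine ⟨⟨(hX x e1.1).1, (hX x' e0.1).1⟩, hne, (hX x e1.1).2, q, hq,
      hT1' x hx x' (hX x' e0.1).1 h2, ?_⟩
    rw [setv_comm hne.symm]
    exact hT0' x' hx' x (hX x e1.1).1 h3
  have hc1 : (I1.biUnion (fun x => (T1 x).image (fun x' => (x, x')))).card ≤ 2 ^ n * k := by
    refine (Finset.card_biUnion_le_card_mul _ _ k fun x hx =>
      Finset.card_image_le.trans (hT1 x hx)).trans (Nat.mul_le_mul_right _ ?_)
    rw [← card_strs n]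
    refine Finset.card_le_card fun x hx => ?_
    exact (hX x (Finset.mem_filter.1 hx).1).1
  have hc0 : (I0.biUnion (fun x' => (T0 x').image (fun x => (x, x')))).card ≤ 2 ^ n * k := by
    refine (Finset.card_biUnion_le_card_mul _ _ k fun x hx =>
      Finset.card_image_le.trans (hT0 x hx)).trans (Nat.mul_le_mul_right _ ?_)
    rw [← card_strs n]
    refine Finset.card_le_card fun x hx => ?_
    exact (hX x (Finset.mem_filter.1 hx).1).1
  have h4 := (Finset.card_le_card hsub).trans (Finset.card_union_le _ _)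
  have h5 := Finset.card_union_le (I1.biUnion (fun x => (T1 x).image (fun x' => (x, x'))))
    (I0.biUnion (fun x' => (T0 x').image (fun x => (x, x'))))
  unfold Sys.W
  refine h4.trans (Nat.add_le_add_left (h5.trans ?_) _)
  calc _ ≤ 2 ^ n * k + 2 ^ n * k := Nat.add_le_add hc1 hc0
    _ = 2 * k * 2 ^ n := by ring

/-- the oracle which is available -/
noncomputable def Sys.O (Y : Sys) (b : ℕ) (D A : Oracle) : Oracle := join (join A D) (Y.K b A)

open scoped Classical in
theorem Sys.core (Y : Sys) {n b k : ℕ} (hY : Y.IsRob n b k) (D A : Oracle) {y : List Bool}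
    (hy : y.length = n) (C : List Unit × List Gate) {T : ℕ} (hT : C.2.length ≤ T) :
    ∑ x ∈ (strs n).filter (fun x => setv x y A ∈ Y.G b),
      outp (Y.O b D (setv x y A)) C n x ≤
      2 + 8 * T ^ 2 * (Nat.sqrt (Y.W n b y A + 2 * k * 2 ^ n) + 1 : ℕ) := by
  obtain ⟨I, hI⟩ : ∃ I, I = (strs n).filter (fun x => setv x y A ∈ Y.G b) := ⟨_, rfl⟩
  rw [← hI]
  obtain ⟨c, hc⟩ : ∃ c, c = Nat.sqrt (Y.W n b y A + 2 * k * 2 ^ n) := ⟨_, rfl⟩
  rw [← hc]
  obtain ⟨M, hM⟩ : ∃ M : Oracle, ∀ q, M q = decide (q.length ≤ b ∧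
    c < (I.filter (fun x => Y.K b (setv x y A) q = true)).card) := ⟨_, fun _ => rfl⟩
  refine sum_outp_le I (join (join A D) M) (fun x => Y.O b D (setv x y A)) (c + 1) ?_ C hT n
  have hfalse : ∀ {p : List Bool → Prop} [DecidablePred p], (∀ x ∈ I, ¬ p x) → (I.filter p).card ≤ c + 1 := by
    intro p _ hp
    rw [Finset.filter_false_of_mem hp]
    simp
  intro u
  match u with
  | [] =>
    refine hfalse ?_
    intro x _ h
    exact h rfl
  | [false] =>
    refine hfalse ?_
    intro x _ h
    exact h rfl
  | false :: true :: v =>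
    refine hfalse ?_
    intro x _ h
    exact h rfl
  | false :: false :: v =>
    have h1 : (I.filter (fun x => Y.O b D (setv x y A) (false :: false :: v) ≠
        join (join A D) M (false :: false :: v))).card ≤ 1 := by
      rw [Finset.card_le_one]
      have key : ∀ x, x ∈ I.filter (fun x => Y.O b D (setv x y A) (false :: false :: v) ≠
          join (join A D) M (false :: false :: v)) → ∃ i, v = pos 0 i x := by
        intro x hx
        have h2 : setv x y A v ≠ A v := (Finset.mem_filter.1 hx).2
        by_contra h3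
        push Not at h3
        exact h2 (setv_of_ne A fun i _ => h3 i)
      intro x hx x' hx'
      obtain ⟨i, hi⟩ := key x hx
      obtain ⟨i', hi'⟩ := key x' hx'
      exact (pos_inj (hi.symm.trans hi')).2.2
    omega
  | true :: q =>
    have e1 : ∀ x, Y.O b D (setv x y A) (true :: q) = Y.K b (setv x y A) q := fun _ => rfl
    have e2 : join (join A D) M (true :: q) = M q := rfl
    simp only [e1, e2]
    by_cases hq : q.length ≤ b
    · have h1 := Y.count hY A hy hq hI
      by_cases h2 : c < (I.filter (fun x => Y.K b (setv x y A) q = true)).card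
      · have h3 : M q = true := by
          rw [hM]
          exact decide_eq_true ⟨hq, h2⟩
        have h4 : I.filter (fun x => Y.K b (setv x y A) q ≠ M q) =
            I.filter (fun x => Y.K b (setv x y A) q = false) := by
          apply Finset.filter_congr
          intro x _
          rw [h3]
          simp
        rw [h4]
        by_contra h5
        push Not at h5
        have h6 : (c + 1) * (c + 1) ≤ Y.W n b y A + 2 * k * 2 ^ n :=
          le_trans (Nat.mul_le_mul h2 (by omega)) h1
        have h8 := Nat.lt_succ_sqrt (Y.W n b y A + 2 * k * 2 ^ n)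
        rw [← hc] at h8
        exact absurd h8 (by simpa using h6)
      · have h3 : M q = false := by
          rw [hM]
          exact decide_eq_false fun h => h2 h.2
        have h4 : I.filter (fun x => Y.K b (setv x y A) q ≠ M q) =
            I.filter (fun x => Y.K b (setv x y A) q = true) := by
          apply Finset.filter_congr
          intro x _
          rw [h3]
          simp
        rw [h4]
        omega
    · refine hfalse ?_
      intro x _ h
      apply h
      rw [hM]
      unfold Sys.K
      rw [decide_eq_false (fun h => hq h.1), decide_eq_false (fun h => hq h.1)]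

end Pool.Agent.H822R2.OWF
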