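import Pool.Agent.H822R2.OWF.Core

/-!
Averages over the oracles.
-/

set_option autoImplicit false

namespace Pool.Agent.H822R2.OWF

open Pool.Agent.H628R3.RO Pool.Agent.H822R2.ESY Pool.Agent.H822R2.ESY.Q
open Pool.Agent.H620R2.Gauge (Gate rd circAct initSt)

/-- the number of places with the same value as `x` -/
def mult (n : ℕ) (A : Oracle) (x : List Bool) : ℕ :=
  ((strs n).filter (fun x' => fn A x' = fn A x)).card

/-- the number of pairs of places with the same value -/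
def coll (n : ℕ) (A : Oracle) : ℕ := ∑ x ∈ strs n, mult n A x

theorem avg_pair (K : Finset (List Bool)) {n : ℕ} (hK : ∀ x ∈ strs n, ∀ i < n, pos 0 i x ∈ K)
    {x x' : List Bool} (hx : x ∈ strs n) (hne : x' ≠ x) :
    2 ^ n * avg K (fun A => if fn A x' = fn A x then (1 : ℝ) else 0) ≤ 1 := by
  rw [avg_setv K x n (hK x hx)]
  have h1 : ∀ y ∈ strs n, avg K (fun A => if fn (setv x y A) x' = fn (setv x y A) x then (1 : ℝ)
      else 0) = avg K (fun A => if fn A x' = y then (1 : ℝ) else 0) := by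
    intro y hy
    congr 1
    funext A
    rw [fn_setv_ne hne.symm, fn_setv (by rw [mem_strs.1 hy, mem_strs.1 hx])]
  rw [Finset.sum_congr rfl h1, ← avg_sum]
  refine (avg_mono K (Ψ := fun _ => (1 : ℝ)) fun A => ?_).trans (avg_const K 1).le
  rw [Finset.sum_ite_eq]
  split_ifs <;> norm_num

theorem avg_coll (K : Finset (List Bool)) {n : ℕ} (hK : ∀ x ∈ strs n, ∀ i < n, pos 0 i x ∈ K) :
    avg K (fun A => (coll n A : ℝ)) ≤ 2 * 2 ^ n := by
  have h1 : (fun A => (coll n A : ℝ)) = fun A => ∑ x ∈ strs n, ∑ x' ∈ strs n,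
      (if fn A x' = fn A x then (1 : ℝ) else 0) := by
    funext A
    unfold coll mult
    push_cast [Finset.card_filter]
    rfl
  rw [h1, avg_sum]
  have h2 : ∀ x ∈ strs n, avg K (fun A => ∑ x' ∈ strs n, (if fn A x' = fn A x then (1 : ℝ)
      else 0)) ≤ 2 := by
    intro x hx
    rw [avg_sum]
    have h3 : ∀ x' ∈ strs n, avg K (fun A => if fn A x' = fn A x then (1 : ℝ) else 0) ≤
        (if x = x' then 1 else 0) + 1 / 2 ^ n := by
      intro x' hx'
      by_cases h : x = x'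
      · subst h
        rw [if_pos rfl]
        have h4 : avg K (fun A => if fn A x = fn A x then (1 : ℝ) else 0) = 1 := by
          simp only [if_true]
          exact avg_const K 1
        rw [h4]
        have : (0 : ℝ) < 1 / 2 ^ n := by positivity
        linarith
      · rw [if_neg h, zero_add, le_div_iff₀ (by positivity), mul_comm]
        exact avg_pair K hK hx (fun h' => h h'.symm)
    refine (Finset.sum_le_sum h3).trans ?_
    rw [Finset.sum_add_distrib, Finset.sum_ite_eq, if_pos hx, Finset.sum_const, card_strs,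
      nsmul_eq_mul]
    push_cast
    have : (2 : ℝ) ^ n * (1 / 2 ^ n) = 1 := by field_simp
    linarith
  refine (Finset.sum_le_sum h2).trans ?_
  rw [Finset.sum_const, card_strs, nsmul_eq_mul]
  push_cast
  linarith

theorem mult_sq_le (n : ℕ) (A : Oracle) {x : List Bool} (_hx : x ∈ strs n) :
    mult n A x ^ 2 ≤ coll n A := by
  unfold coll
  have h1 : ∑ x' ∈ (strs n).filter (fun x' => fn A x' = fn A x), mult n A x' ≤
      ∑ x' ∈ strs n, mult n A x' :=
    Finset.sum_le_sum_of_subset (Finset.filter_subset _ _)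
  refine le_trans (le_of_eq ?_) h1
  have h2 : ∀ x' ∈ (strs n).filter (fun x' => fn A x' = fn A x), mult n A x' = mult n A x := by
    intro x' hx'
    have h3 := (Finset.mem_filter.1 hx').2
    unfold mult
    simp only [h3]
  rw [Finset.sum_congr rfl h2, Finset.sum_const, smul_eq_mul, sq]
  rfl

theorem mult_le (n : ℕ) (A : Oracle) {x : List Bool} (hx : x ∈ strs n) {μ : ℝ} (hμ : 0 < μ) :
    (mult n A x : ℝ) ≤ (coll n A / μ + μ) / 2 := by
  have h1 : (mult n A x : ℝ) ^ 2 ≤ coll n A := by exact_mod_cast mult_sq_le n A hx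
  have h2 : (mult n A x : ℝ) * (2 * μ) ≤ coll n A + μ * μ := by
    nlinarith [sq_nonneg ((mult n A x : ℝ) - μ)]
  have h3 : ((coll n A : ℝ) / μ + μ) / 2 = (coll n A + μ * μ) / (2 * μ) := by
    field_simp
  rw [h3, le_div_iff₀ (by positivity)]
  exact h2

open scoped Classical in
/-- the average number of pairs of places -/
theorem Sys.avg_W (Y : Sys) {n b k : ℕ} (hY : Y.IsRob n b k) (K : Finset (List Bool))
    (hK : ∀ x ∈ strs n, ∀ i < n, pos 0 i x ∈ K) {μ : ℝ} (hμ : 0 < μ) :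
    ∑ y ∈ strs n, avg K (fun A => (Y.W n b y A : ℝ)) ≤
      2 ^ n * 2 ^ n * (k * (2 * 2 ^ n / μ + μ)) := by
  obtain ⟨Ψ, hΨ⟩ : ∃ Ψ : List Bool → List Bool → Oracle → ℝ, ∀ x x' A, Ψ x x' A =
      if (A ∈ Y.E b ∧ Y.Q n b A x') ∧ fn A x = fn A x' then 1 else 0 := ⟨_, fun _ _ _ => rfl⟩
  have hΨ0 : ∀ x x' A, 0 ≤ Ψ x x' A := fun x x' A => by
    rw [hΨ]
    split_ifs <;> norm_num
  -- each pair
  have h1 : ∀ y ∈ strs n, ∀ A, (Y.W n b y A : ℝ) ≤ ∑ x ∈ strs n, ∑ x' ∈ strs n,
      (if x ≠ x' then Ψ x x' (setv x y (setv x' y A)) else 0) := by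
    intro y hy A
    unfold Sys.W
    rw [Finset.card_filter, Finset.sum_product]
    push_cast
    refine Finset.sum_le_sum fun x hx => Finset.sum_le_sum fun x' hx' => ?_
    have hxl := mem_strs.1 hx
    have hxl' := mem_strs.1 hx'
    have hyl := mem_strs.1 hy
    by_cases h : x ≠ x' ∧ setv x y A ∈ Y.G b ∧ setv x' y (setv x y A) ∈ Y.E b
    · rw [if_pos h, if_pos h.1, hΨ, if_pos]
      rw [setv_comm h.1]
      refine ⟨⟨h.2.2, fn (setv x y A) x', by rw [length_fn, hxl'], ?_⟩, ?_⟩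
      · rw [setv_setv (by rw [length_fn, hxl', hyl]), setv_fn]
        exact h.2.1
      · rw [fn_setv_ne h.1.symm, fn_setv (by rw [hyl, hxl]), fn_setv (by rw [hyl, hxl'])]
    · rw [if_neg h]
      split_ifs
      · exact hΨ0 _ _ _
      · exact le_rfl
  have h2 : ∑ y ∈ strs n, avg K (fun A => (Y.W n b y A : ℝ)) ≤
      ∑ y ∈ strs n, ∑ x ∈ strs n, ∑ x' ∈ strs n,
        (if x ≠ x' then avg K (fun A => Ψ x x' (setv x y (setv x' y A))) else 0) := by
    refine Finset.sum_le_sum fun y hy => ?_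
    refine (avg_mono K (h1 y hy)).trans (le_of_eq ?_)
    rw [avg_sum]
    refine Finset.sum_congr rfl fun x _ => ?_
    rw [avg_sum]
    refine Finset.sum_congr rfl fun x' _ => ?_
    split_ifs
    · rfl
    · exact avg_const K 0
  have h3 : ∀ x ∈ strs n, ∀ x' ∈ strs n, ∑ y ∈ strs n,
      avg K (fun A => Ψ x x' (setv x y (setv x' y A))) ≤ 2 ^ n * 2 ^ n * avg K (Ψ x x') := by
    intro x hx x' hx'
    have e1 : 2 ^ n * 2 ^ n * avg K (Ψ x x') = ∑ y ∈ strs n, ∑ v ∈ strs n,
        avg K (fun A => Ψ x x' (setv x y (setv x' v A))) := by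
      rw [mul_assoc, avg_setv K x n (hK x hx), Finset.mul_sum]
      refine Finset.sum_congr rfl fun y _ => ?_
      rw [avg_setv K x' n (hK x' hx')]
    rw [e1]
    refine Finset.sum_le_sum fun y hy => ?_
    exact Finset.single_le_sum (f := fun v => avg K (fun A => Ψ x x' (setv x y (setv x' v A))))
      (fun v _ => avg_nonneg K fun A => hΨ0 _ _ _) hy
  have h4 : ∑ y ∈ strs n, ∑ x ∈ strs n, ∑ x' ∈ strs n,
        (if x ≠ x' then avg K (fun A => Ψ x x' (setv x y (setv x' y A))) else 0) ≤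
      2 ^ n * 2 ^ n * avg K (fun A => ∑ x ∈ strs n, ∑ x' ∈ strs n, Ψ x x' A) := by
    rw [Finset.sum_comm, avg_sum, Finset.mul_sum]
    refine Finset.sum_le_sum fun x hx => ?_
    rw [Finset.sum_comm, avg_sum, Finset.mul_sum]
    refine Finset.sum_le_sum fun x' hx' => ?_
    by_cases h : x ≠ x'
    · simp only [if_pos h]
      exact h3 x hx x' hx'
    · simp only [if_neg h, Finset.sum_const_zero]
      exact mul_nonneg (by positivity) (avg_nonneg K fun A => hΨ0 _ _ _)
  have h5 : ∀ A, ∑ x ∈ strs n, ∑ x' ∈ strs n, Ψ x x' A ≤ k * (coll n A / μ + μ) := by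
    intro A
    have hnn : 0 ≤ (k : ℝ) * (coll n A / μ + μ) := by positivity
    by_cases hA : A ∈ Y.E b
    · have e1 : ∑ x ∈ strs n, ∑ x' ∈ strs n, Ψ x x' A =
          ∑ x' ∈ (strs n).filter (Y.Q n b A), (mult n A x' : ℝ) := by
        rw [Finset.sum_comm, Finset.sum_filter]
        refine Finset.sum_congr rfl fun x' _ => ?_
        by_cases h : Y.Q n b A x'
        · rw [if_pos h]
          unfold mult
          rw [Finset.card_filter]
          push_cast
          refine Finset.sum_congr rfl fun x _ => ?_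
          rw [hΨ]
          simp [hA, h]
        · rw [if_neg h]
          refine Finset.sum_eq_zero fun x _ => ?_
          rw [hΨ, if_neg]
          exact fun h' => h h'.1.2
      rw [e1]
      have e2 : ∑ x' ∈ (strs n).filter (Y.Q n b A), (mult n A x' : ℝ) ≤
          ∑ _x' ∈ (strs n).filter (Y.Q n b A), ((coll n A / μ + μ) / 2 : ℝ) :=
        Finset.sum_le_sum fun x' hx' => mult_le n A (Finset.mem_filter.1 hx').1 hμ
      refine e2.trans ?_
      rw [Finset.sum_const, nsmul_eq_mul]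
      have e3 : (((strs n).filter (Y.Q n b A)).card : ℝ) ≤ 2 * k := by
        exact_mod_cast Y.card_Q hY hA
      have e4 : 0 ≤ ((coll n A : ℝ) / μ + μ) / 2 := by positivity
      calc _ ≤ 2 * (k : ℝ) * ((coll n A / μ + μ) / 2) := mul_le_mul_of_nonneg_right e3 e4
        _ = _ := by ring
    · refine le_trans (le_of_eq ?_) hnn
      refine Finset.sum_eq_zero fun x _ => Finset.sum_eq_zero fun x' _ => ?_
      rw [hΨ, if_neg]
      exact fun h' => hA h'.1.1
  have h6 : avg K (fun A => ∑ x ∈ strs n, ∑ x' ∈ strs n, Ψ x x' A) ≤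
      k * (2 * 2 ^ n / μ + μ) := by
    refine (avg_mono K h5).trans ?_
    rw [avg_mul]
    have e1 : avg K (fun A => (coll n A : ℝ) / μ + μ) ≤ 2 * 2 ^ n / μ + μ := by
      rw [avg_add, avg_const]
      have e2 : (fun A => (coll n A : ℝ) / μ) = fun A => μ⁻¹ * (coll n A : ℝ) := by
        funext A
        rw [div_eq_inv_mul]
      rw [e2, avg_mul, div_eq_inv_mul]
      have := mul_le_mul_of_nonneg_left (avg_coll K hK) (inv_nonneg.2 hμ.le)
      linarith
    exact mul_le_mul_of_nonneg_left e1 (by positivity)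
  refine h2.trans (h4.trans ?_)
  exact mul_le_mul_of_nonneg_left h6 (by positivity)

open scoped Classical in
/-- the probability of finding the given place -/
theorem Sys.avg_outp (Y : Sys) {n b k : ℕ} (hY : Y.IsRob n b k) (K : Finset (List Bool))
    (hK : ∀ x ∈ strs n, ∀ i < n, pos 0 i x ∈ K) (D : Oracle)
    (C : List Bool → List Unit × List Gate) {T : ℕ}
    (hT : ∀ y ∈ strs n, (C y).2.length ≤ T) {μ ν : ℝ} (hμ : 0 < μ) (hν : 0 < ν) :
    avg K (fun A => if A ∈ Y.G b then ∑ x ∈ strs n, outp (Y.O b D A) (C (fn A x)) n x else 0) ≤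
      2 + 8 * T ^ 2 + 4 * T ^ 2 *
        ((2 * k * 2 ^ n + 2 ^ n * (k * (2 * 2 ^ n / μ + μ))) / ν + ν) := by
  obtain ⟨Φ, hΦ⟩ : ∃ Φ : List Bool → Oracle → ℝ, ∀ x A, Φ x A =
      if A ∈ Y.G b then outp (Y.O b D A) (C (fn A x)) n x else 0 := ⟨_, fun _ _ => rfl⟩
  have h1 : avg K (fun A => if A ∈ Y.G b then ∑ x ∈ strs n, outp (Y.O b D A) (C (fn A x)) n x
      else 0) = ∑ x ∈ strs n, avg K (Φ x) := by
    rw [← avg_sum]
    congr 1
    funext A
    by_cases h : A ∈ Y.G b
    · rw [if_pos h]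
      refine Finset.sum_congr rfl fun x _ => ?_
      rw [hΦ, if_pos h]
    · rw [if_neg h]
      symm
      refine Finset.sum_eq_zero fun x _ => ?_
      rw [hΦ, if_neg h]
  rw [h1]
  have hN : (0 : ℝ) < 2 ^ n := by positivity
  refine le_of_mul_le_mul_left ?_ hN
  rw [Finset.mul_sum]
  have h2 : ∀ x ∈ strs n, 2 ^ n * avg K (Φ x) = ∑ y ∈ strs n,
      avg K (fun A => if setv x y A ∈ Y.G b then outp (Y.O b D (setv x y A)) (C y) n x else 0) := by
    intro x hx
    rw [avg_setv K x n (hK x hx)]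
    refine Finset.sum_congr rfl fun y hy => ?_
    congr 1
    funext A
    rw [hΦ, fn_setv (by rw [mem_strs.1 hy, mem_strs.1 hx])]
  rw [Finset.sum_congr rfl h2, Finset.sum_comm]
  have h3 : ∀ y ∈ strs n, ∑ x ∈ strs n, avg K (fun A => if setv x y A ∈ Y.G b then
      outp (Y.O b D (setv x y A)) (C y) n x else 0) ≤
      2 + 8 * T ^ 2 + 4 * T ^ 2 * ((avg K (fun A => (Y.W n b y A : ℝ)) + 2 * k * 2 ^ n) / ν
        + ν) := by
    intro y hy
    rw [← avg_sum]
    have h4 : ∀ A, ∑ x ∈ strs n, (if setv x y A ∈ Y.G b then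
      outp (Y.O b D (setv x y A)) (C y) n x else 0) ≤
        (2 + 8 * T ^ 2 + 4 * T ^ 2 * (2 * k * 2 ^ n / ν + ν)) +
          (4 * T ^ 2 / ν) * (Y.W n b y A : ℝ) := by
      intro A
      rw [← Finset.sum_filter]
      refine (Y.core hY D A (mem_strs.1 hy) (C y) (hT y hy)).trans ?_
      push_cast
      have h5 : ((Nat.sqrt (Y.W n b y A + 2 * k * 2 ^ n) : ℕ) : ℝ) ≤
          (((Y.W n b y A : ℝ) + 2 * k * 2 ^ n) / ν + ν) / 2 := by
        have h6 : ((Nat.sqrt (Y.W n b y A + 2 * k * 2 ^ n) : ℕ) : ℝ) ^ 2 ≤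
            (Y.W n b y A : ℝ) + 2 * k * 2 ^ n := by
          exact_mod_cast Nat.sqrt_le' (Y.W n b y A + 2 * k * 2 ^ n)
        have h7 : (((Y.W n b y A : ℝ) + 2 * k * 2 ^ n) / ν + ν) / 2 =
            (((Y.W n b y A : ℝ) + 2 * k * 2 ^ n) + ν * ν) / (2 * ν) := by
          field_simp
        rw [h7, le_div_iff₀ (by positivity)]
        nlinarith [sq_nonneg (((Nat.sqrt (Y.W n b y A + 2 * k * 2 ^ n) : ℕ) : ℝ) - ν)]
      have h8 : (0 : ℝ) ≤ 8 * T ^ 2 := by positivity
      have h9 := mul_le_mul_of_nonneg_left h5 h8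
      have h10 : (8 : ℝ) * T ^ 2 * ((((Y.W n b y A : ℝ) + 2 * k * 2 ^ n) / ν + ν) / 2) =
          4 * T ^ 2 * (2 * k * 2 ^ n / ν + ν) + (4 * T ^ 2 / ν) * (Y.W n b y A : ℝ) := by
        field_simp
        ring
      linarith
    refine (avg_mono K h4).trans (le_of_eq ?_)
    rw [avg_add, avg_const, avg_mul]
    field_simp
    ring
  refine (Finset.sum_le_sum h3).trans ?_
  have h4 := Y.avg_W hY K hK hμ
  set w : List Bool → ℝ := fun y => avg K (fun A => (Y.W n b y A : ℝ)) with hw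
  have h5 : ∑ y ∈ strs n, (2 + 8 * (T : ℝ) ^ 2 + 4 * T ^ 2 * ((w y + 2 * k * 2 ^ n) / ν + ν)) =
      2 ^ n * (2 + 8 * T ^ 2 + 4 * T ^ 2 * (2 * k * 2 ^ n / ν + ν)) +
        (4 * T ^ 2 / ν) * ∑ y ∈ strs n, w y := by
    have e : ∀ y ∈ strs n, (2 + 8 * (T : ℝ) ^ 2 + 4 * T ^ 2 * ((w y + 2 * k * 2 ^ n) / ν + ν)) =
        (2 + 8 * T ^ 2 + 4 * T ^ 2 * (2 * k * 2 ^ n / ν + ν)) + (4 * T ^ 2 / ν) * w y := by
      intro y _
      field_simp
      ring
    rw [Finset.sum_congr rfl e, Finset.sum_add_distrib, Finset.sum_const, card_strs,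
      nsmul_eq_mul, ← Finset.mul_sum]
    push_cast
    ring
  rw [h5]
  have h6 : (0 : ℝ) ≤ 4 * T ^ 2 / ν := by positivity
  have h7 := mul_le_mul_of_nonneg_left h4 h6
  refine (add_le_add le_rfl h7).trans (le_of_eq ?_)
  field_simp
  ring

end Pool.Agent.H822R2.OWF
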