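import Pool.Agent.H822R2.OWF.Setv
import Pool.Agent.H822R2.ESY.QHyb

/-!
A quantum circuit which must find the place where its oracle was changed.
-/

set_option autoImplicit false

namespace Pool.Agent.H822R2.OWF

open Pool.Agent.H628R3.RO Pool.Agent.H822R2.ESY Pool.Agent.H822R2.ESY.Q
open Pool.Agent.H620R2.Gauge (Gate rd circAct initSt)

/-- the probability that the measurement of the first `n` qubits gives `x` -/
noncomputable def outp (O : Oracle) (C : List Unit × List Gate) (n : ℕ) (x : List Bool) : ℝ :=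
  ∑ s : Fin C.1.length → Bool,
    if (List.range n).map (rd s) = x then circAct O C.2 (initSt C.1.length) s ^ 2 else 0

theorem outp_nonneg (O : Oracle) (C : List Unit × List Gate) (n : ℕ) (x : List Bool) :
    0 ≤ outp O C n x := Finset.sum_nonneg fun s _ => by split_ifs <;> positivity

theorem sum_circ (O : Oracle) (C : List Unit × List Gate) :
    ∑ s : Fin C.1.length → Bool, circAct O C.2 (initSt C.1.length) s ^ 2 = 1 := by
  have h1 : nrm (circAct O C.2 (initSt C.1.length)) = 1 := by
    rw [nrm_circ]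
    unfold nrm
    rw [sum_initSt, Real.sqrt_one]
  have h2 := Real.sq_sqrt (show 0 ≤ ∑ s : Fin C.1.length → Bool,
    circAct O C.2 (initSt C.1.length) s ^ 2 from Finset.sum_nonneg fun s _ => sq_nonneg _)
  unfold nrm at h1
  rw [h1] at h2
  linarith

theorem sum_outp_le_one (O : Oracle) (C : List Unit × List Gate) (n : ℕ)
    (I : Finset (List Bool)) : ∑ x ∈ I, outp O C n x ≤ 1 := by
  classical
  unfold outp
  rw [Finset.sum_comm, ← sum_circ O C]
  refine Finset.sum_le_sum fun s _ => ?_
  rw [Finset.sum_ite_eq]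
  split_ifs
  · exact le_rfl
  · exact sq_nonneg _

theorem outp_close (O O' : Oracle) (C : List Unit × List Gate) (n : ℕ) (x : List Bool) :
    outp O' C n x ≤ 2 * outp O C n x +
      8 * (C.2.length * dev O O' C.2 (initSt C.1.length)) := by
  set ψ := circAct O C.2 (initSt C.1.length) with hψ
  set φ := circAct O' C.2 (initSt C.1.length) with hφ
  have h1 := hybrid O O' C.2 (initSt C.1.length) (initSt C.1.length)
  have h2 : nrm (fun s => initSt C.1.length s - initSt C.1.length s) = 0 := by
    unfold nrm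
    simp
  rw [h2, zero_add, ← hψ, ← hφ] at h1
  have hd := dev_nonneg O O' C.2 (initSt C.1.length)
  have h3 : ∑ s, (ψ s - φ s) ^ 2 ≤ 4 * (C.2.length * dev O O' C.2 (initSt C.1.length)) := by
    have h4 := pow_le_pow_left₀ (nrm_nonneg _) h1 2
    unfold nrm at h4
    rw [Real.sq_sqrt (Finset.sum_nonneg fun s _ => sq_nonneg _), mul_pow,
      Real.sq_sqrt (by positivity)] at h4
    linarith
  have h4 : outp O' C n x ≤ 2 * outp O C n x + 2 * ∑ s, (ψ s - φ s) ^ 2 := by
    unfold outp
    rw [← hψ, ← hφ, Finset.mul_sum, Finset.mul_sum, ← Finset.sum_add_distrib]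
    refine Finset.sum_le_sum fun s _ => ?_
    split_ifs
    · nlinarith [sq_nonneg (2 * ψ s - φ s)]
    · nlinarith [sq_nonneg (ψ s - φ s)]
  linarith

open scoped Classical in
theorem sum_outp_le (I : Finset (List Bool)) (O : Oracle) (O' : List Bool → Oracle) (c : ℕ)
    (hc : ∀ u, (I.filter (fun x => O' x u ≠ O u)).card ≤ c) (C : List Unit × List Gate) {T : ℕ}
    (hT : C.2.length ≤ T) (n : ℕ) :
    ∑ x ∈ I, outp (O' x) C n x ≤ 2 + 8 * T ^ 2 * c := by
  have h1 := sum_dev I O O' c hc C.2 (initSt C.1.length)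
  rw [sum_initSt, mul_one] at h1
  have hT' : (C.2.length : ℝ) ≤ T := Nat.cast_le.2 hT
  have h2 : ∑ x ∈ I, outp (O' x) C n x ≤ ∑ x ∈ I, (2 * outp O C n x +
      8 * (C.2.length * dev O (O' x) C.2 (initSt C.1.length))) :=
    Finset.sum_le_sum fun x _ => outp_close O (O' x) C n x
  rw [Finset.sum_add_distrib, ← Finset.mul_sum, ← Finset.mul_sum, ← Finset.mul_sum] at h2
  have h3 := sum_outp_le_one O C n I
  have h4 : (C.2.length : ℝ) * ∑ x ∈ I, dev O (O' x) C.2 (initSt C.1.length) ≤
      C.2.length * (C.2.length * c) := mul_le_mul_of_nonneg_left h1 (by positivity)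
  have h5 : (C.2.length : ℝ) * (C.2.length * c) ≤ T * (T * c) :=
    mul_le_mul hT' (mul_le_mul_of_nonneg_right hT' (by positivity)) (by positivity) (by positivity)
  nlinarith

end Pool.Agent.H822R2.OWF
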