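import Pool.Agent.H822R2.OWF.AM

/-!
Almost every oracle.
-/

set_option autoImplicit false

namespace Pool.Agent.H822R2.OWF

open MeasureTheory Filter Pool.Agent.NPC Pool.Agent.H822R2.ESY Pool.Agent.H822R2.ESY.Q
open Pool.Agent.H628R3.RO hiding strs mem_strs
open Pool.Agent.H620R2.Gauge (Gate rd circAct initSt circ_bound circAct_local countable_circ)

/-- a family of quantum circuits computable in polynomial time -/
def Circ : Type := {C : List Bool → List Unit × List Gate // PolyTime (fun x => bits (C x))}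

instance : Countable Circ := (countable_circ).to_subtype

/-- a polynomial bound for the size of the circuits -/
noncomputable def cb (C : Circ) : Polynomial ℕ := Classical.choose (circ_bound C.2)

theorem cb_spec (C : Circ) : ∀ x, (C.1 x).2.length ≤ (cb C).eval x.length ∧
    ∀ q k, Sum.inr (true, q, k) ∈ (C.1 x).2 → q.length ≤ (cb C).eval x.length :=
  Classical.choose_spec (circ_bound C.2)

theorem circ_congr (C : Circ) {O O' : Oracle} {x : List Bool}
    (h : ∀ u : List Bool, u.length ≤ (cb C).eval x.length → O u = O' u)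
    (ψ : (Fin (C.1 x).1.length → Bool) → ℝ) :
    circAct O (C.1 x).2 ψ = circAct O' (C.1 x).2 ψ :=
  circAct_local _ (fun q k hqk y hy => h y (by
    rw [hy]
    exact (cb_spec C x).2 q k hqk)) ψ

theorem inverts_congr (f : List Bool → List Bool) (C : Circ) {O O' : Oracle} {x y : List Bool}
    (h : ∀ u : List Bool, u.length ≤ (cb C).eval y.length → O u = O' u) :
    inverts f O (C.1 y) x = inverts f O' (C.1 y) x := by
  unfold inverts
  rw [circ_congr C h]

section

variable (V₁ : Alg) (p₁ : Polynomial ℕ) (V₀ : Alg) (p₀ : Polynomial ℕ) (D : Oracle) (C : Circ)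

/-- the sum of the probabilities of success -/
noncomputable def tot (b n : ℕ) (A : Oracle) : ℝ :=
  ∑ x ∈ strs n, inverts (fn A) ((sys V₁ p₁ V₀ p₀ D).O b D A) (C.1 (fn A x)) x

/-- the oracles for which the family of circuits is good on the strings of length `n` -/
def Bad (n : ℕ) : Set Oracle :=
  {A | A ∈ (sys V₁ p₁ V₀ p₀ D).G ((cb C).eval n) ∧
    2 ^ n * (1 / 2 : ℝ) ^ (n / 16) < tot V₁ p₁ V₀ p₀ D C ((cb C).eval n) n A}

/-- the bound for the lengths of the strings which matter -/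
noncomputable def RR (n : ℕ) : ℕ :=
  Lb V₁ p₁ ((cb C).eval n) + Lb V₀ p₀ ((cb C).eval n) + (cb C).eval n + (2 * n + 2)

theorem loc_Bad (n : ℕ) : Loc {u | u.length ≤ RR V₁ p₁ V₀ p₀ C n}
    (Bad V₁ p₁ V₀ p₀ D C n) := by
  refine loc_of_imp fun A A' hA => ?_
  set b := (cb C).eval n with hb
  have hA' : ∀ u : List Bool, u.length ≤ RR V₁ p₁ V₀ p₀ C n → A u = A' u := hA
  have h1 : ∀ j (q : List Bool), q.length ≤ b → (lev V₁ p₁ D j q A ↔ lev V₁ p₁ D j q A') :=
    fun j q hq => lev_congr V₁ p₁ D j (R := RR V₁ p₁ V₀ p₀ C n) (by unfold RR; rw [← hb]; omega) hq hA'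
  have h0 : ∀ j (q : List Bool), q.length ≤ b → (lev V₀ p₀ D j q A ↔ lev V₀ p₀ D j q A') :=
    fun j q hq => lev_congr V₀ p₀ D j (R := RR V₁ p₁ V₀ p₀ C n) (by unfold RR; rw [← hb]; omega) hq hA'
  have hfn : ∀ x : List Bool, x.length = n → fn A x = fn A' x := by
    intro x hx
    unfold fn
    apply List.map_congr_left
    intro i hi
    apply hA'
    rw [length_pos]
    have := List.mem_range.1 hi
    unfold RR
    omega
  have htot : tot V₁ p₁ V₀ p₀ D C b n A = tot V₁ p₁ V₀ p₀ D C b n A' := by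
    unfold tot
    refine Finset.sum_congr rfl fun x hx => ?_
    have hx' := mem_strs.1 hx
    rw [inverts_congr (fn A) C (O' := (sys V₁ p₁ V₀ p₀ D).O b D A'), hfn x hx']
    · unfold inverts
      refine Finset.sum_congr rfl fun s _ => ?_
      rw [hfn x hx', hfn _ (by rw [List.length_map, List.length_range, hx'])]
    · intro u hu
      rw [length_fn, hx'] at hu
      match u, hu with
      | [], _ => rfl
      | true :: q, hu =>
        show (sys V₁ p₁ V₀ p₀ D).K b A q = (sys V₁ p₁ V₀ p₀ D).K b A' q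
        unfold Sys.K
        simp only [List.length_cons] at hu
        have : ((sys V₁ p₁ V₀ p₀ D).a q A ↔ (sys V₁ p₁ V₀ p₀ D).a q A') := h1 10 q (by omega)
        exact decide_eq_decide.2 (and_congr_right fun _ => this)
      | [false], _ => rfl
      | false :: true :: q, _ => rfl
      | false :: false :: q, hu =>
        show A q = A' q
        simp only [List.length_cons] at hu
        apply hA'
        unfold RR
        omega
  rintro ⟨g1, g2⟩
  refine ⟨fun q hq => ?_, ?_⟩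
  · rcases g1 q hq with h | h
    · left
      exact ⟨(h1 10 q hq).1 h.1, fun h' => h.2 ((h0 8 q hq).2 h')⟩
    · right
      exact ⟨(h0 10 q hq).1 h.1, fun h' => h.2 ((h1 8 q hq).2 h')⟩
  · rw [← htot]
    exact g2

/-- the polynomial in the bound for the probability -/
noncomputable def PP : Polynomial ℕ :=
  4 + 12 * cb C ^ 2 + 20 * cb C ^ 2 * (15 *
    ((V₁.p.comp (2 * (2 * Polynomial.X + 1 + p₁) + 1 + p₁)).comp (cb C) +
      (V₀.p.comp (2 * (2 * Polynomial.X + 1 + p₀) + 1 + p₀)).comp (cb C)))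

theorem PP_eval (n : ℕ) : (PP V₁ p₁ V₀ p₀ C).eval n = 4 + 12 * ((cb C).eval n) ^ 2 +
    20 * ((cb C).eval n) ^ 2 * (15 * (Pb V₁ p₁ ((cb C).eval n) + Pb V₀ p₀ ((cb C).eval n))) := by
  unfold PP Pb
  simp

theorem prob_Bad (n : ℕ) : prob (Bad V₁ p₁ V₀ p₀ D C n) ≤
    (((PP V₁ p₁ V₀ p₀ C).eval n : ℕ) : ℝ) * (1 / 2) ^ (n / 16) := by
  classical
  set b := (cb C).eval n with hb
  set K := (finite_length_le (RR V₁ p₁ V₀ p₀ C n)).toFinset with hK
  have hKloc : Loc (K : Set (List Bool)) (Bad V₁ p₁ V₀ p₀ D C n) := by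
    rw [hK, Set.Finite.coe_toFinset]
    exact loc_Bad V₁ p₁ V₀ p₀ D C n
  have hKpos : ∀ x ∈ strs n, ∀ i < n, pos 0 i x ∈ K := by
    intro x hx i hi
    rw [hK, Set.Finite.mem_toFinset]
    show (pos 0 i x).length ≤ _
    rw [length_pos, mem_strs.1 hx]
    unfold RR
    omega
  have h1 := (sys V₁ p₁ V₀ p₀ D).avg_inverts (sys_rob V₁ p₁ V₀ p₀ D n b) K hKpos D C.1
    (T := b) (fun y hy => by
      have := (cb_spec C y).1
      rwa [mem_strs.1 hy] at this)
  rw [prob_eq_avg hKloc]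
  have hε : (0 : ℝ) < 2 ^ n * (1 / 2) ^ (n / 16) := by positivity
  have htot : ∀ A, 0 ≤ tot V₁ p₁ V₀ p₀ D C b n A := by
    intro A
    unfold tot inverts
    exact Finset.sum_nonneg fun x _ => Finset.sum_nonneg fun s _ => by
      split_ifs
      · exact sq_nonneg _
      · exact le_rfl
  have h2 : avg K (fun A => if A ∈ Bad V₁ p₁ V₀ p₀ D C n then (1 : ℝ) else 0) ≤
      (2 ^ n * (1 / 2) ^ (n / 16))⁻¹ * avg K (fun A =>
        if A ∈ (sys V₁ p₁ V₀ p₀ D).G b then tot V₁ p₁ V₀ p₀ D C b n A else 0) := by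
    rw [← avg_mul]
    refine avg_mono K fun A => ?_
    by_cases h : A ∈ Bad V₁ p₁ V₀ p₀ D C n
    · rw [if_pos h, if_pos h.1, ← div_eq_inv_mul, le_div_iff₀ hε, one_mul]
      exact h.2.le
    · rw [if_neg h]
      split_ifs
      · exact mul_nonneg (inv_nonneg.2 hε.le) (htot A)
      · simp
  refine h2.trans ?_
  have h3 := mul_le_mul_of_nonneg_left h1 (inv_nonneg.2 hε.le)
  refine h3.trans ?_
  rw [PP_eval, ← hb]
  push_cast
  obtain ⟨c, hc⟩ : ∃ c : ℝ, c = 4 + 12 * (b : ℝ) ^ 2 +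
    20 * b ^ 2 * (15 * ((Pb V₁ p₁ b : ℝ) + Pb V₀ p₀ b)) := ⟨_, rfl⟩
  rw [← hc]
  have hc0 : 0 ≤ c := by
    rw [hc]
    positivity
  have h4 : (2 : ℝ) ^ (n / 16) * 2 ^ (n / 16) ≤ 2 ^ (n / 8) := by
    rw [← pow_add]
    exact pow_le_pow_right₀ (by norm_num) (by omega)
  have h5 : ((2 : ℝ) ^ n * (1 / 2) ^ (n / 16))⁻¹ * (c * 2 ^ n / 2 ^ (n / 8)) =
      c * (2 ^ (n / 16) / 2 ^ (n / 8)) := by
    rw [one_div, inv_pow]
    field_simp
  rw [h5]
  apply mul_le_mul_of_nonneg_left _ hc0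
  rw [one_div, inv_pow, div_le_iff₀ (by positivity), ← div_eq_inv_mul,
    le_div_iff₀ (by positivity)]
  exact h4

theorem summable_bound (P : Polynomial ℕ) :
    Summable (fun n : ℕ => ((P.eval n : ℕ) : ℝ) * (1 / 2) ^ (n / 16)) := by
  -- compare with `256 / (n + 1) ^ 2`
  obtain ⟨m₀, hm₀⟩ := poly_le_two_pow (P.comp (16 * Polynomial.X + 16) * (Polynomial.X + 1) ^ 2)
  have h1 : ∀ n ≥ 16 * m₀, ((P.eval n : ℕ) : ℝ) * (1 / 2) ^ (n / 16) ≤ 256 * (1 / ((n : ℝ) + 1) ^ 2) := by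
    intro n hn
    obtain ⟨m, hm⟩ : ∃ m, m = n / 16 := ⟨_, rfl⟩
    have h2 := hm₀ m (by omega)
    simp only [Polynomial.eval_mul, Polynomial.eval_comp, Polynomial.eval_add,
      Polynomial.eval_ofNat, Polynomial.eval_X, Polynomial.eval_pow, Polynomial.eval_one] at h2
    have h3 : P.eval n ≤ P.eval (16 * m + 16) := eval_mono P (by omega)
    rw [← hm]
    have h4 : ((P.eval n : ℕ) : ℝ) * ((m : ℝ) + 1) ^ 2 ≤ 2 ^ m := by
      have h5 : P.eval n * (m + 1) ^ 2 ≤ 2 ^ m := (Nat.mul_le_mul_right _ h3).trans h2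
      exact_mod_cast h5
    have h6 : ((n : ℝ) + 1) ≤ 16 * ((m : ℝ) + 1) := by
      have : n + 1 ≤ 16 * (m + 1) := by omega
      exact_mod_cast this
    have h7 : ((n : ℝ) + 1) ^ 2 ≤ 256 * ((m : ℝ) + 1) ^ 2 := by
      have := pow_le_pow_left₀ (by positivity) h6 2
      rw [mul_pow] at this
      norm_num at this
      exact this
    rw [one_div, inv_pow, ← div_eq_mul_inv, div_le_iff₀ (by positivity)]
    have h8 : 256 * (1 / ((n : ℝ) + 1) ^ 2) * 2 ^ m = 256 * 2 ^ m / ((n : ℝ) + 1) ^ 2 := by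
      ring
    rw [h8, le_div_iff₀ (by positivity)]
    have h9 : (0 : ℝ) ≤ P.eval n := Nat.cast_nonneg _
    calc ((P.eval n : ℕ) : ℝ) * ((n : ℝ) + 1) ^ 2 ≤ P.eval n * (256 * ((m : ℝ) + 1) ^ 2) :=
          mul_le_mul_of_nonneg_left h7 h9
      _ = 256 * (P.eval n * ((m : ℝ) + 1) ^ 2) := by ring
      _ ≤ 256 * 2 ^ m := by linarith
  have h2 : Summable (fun n : ℕ => 256 * (1 / ((n : ℝ) + 1) ^ 2)) := by
    apply Summable.mul_left
    have := (summable_nat_add_iff 1).2 (Real.summable_one_div_nat_pow.2 (by norm_num : 1 < 2))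
    refine this.congr fun n => ?_
    push_cast
    rfl
  rw [← summable_nat_add_iff (16 * m₀)]
  rw [← summable_nat_add_iff (16 * m₀)] at h2
  exact Summable.of_nonneg_of_le (fun n => by positivity) (fun n => h1 _ (by omega)) h2

theorem ae_Bad : ∀ᵐ A ∂randomOracle, ∀ᶠ n in atTop, A ∉ Bad V₁ p₁ V₀ p₀ D C n := by
  apply ae_eventually_notMem
  have h1 : ∀ n, randomOracle (Bad V₁ p₁ V₀ p₀ D C n) ≤
      ENNReal.ofReal ((((PP V₁ p₁ V₀ p₀ C).eval n : ℕ) : ℝ) * (1 / 2) ^ (n / 16)) := by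
    intro n
    have := prob_Bad V₁ p₁ V₀ p₀ D C n
    unfold prob at this
    rw [← ofReal_measureReal]
    exact ENNReal.ofReal_le_ofReal this
  refine ne_top_of_le_ne_top ?_ (ENNReal.tsum_le_tsum h1)
  rw [← ENNReal.ofReal_tsum_of_nonneg (fun n => by positivity) (summable_bound _)]
  exact ENNReal.ofReal_ne_top

end

theorem ae_all (D : Oracle) : ∀ᵐ A ∂randomOracle, ∀ (V₁ : Alg) (p₁ : Polynomial ℕ) (V₀ : Alg)
    (p₀ : Polynomial ℕ) (C : Circ), ∀ᶠ n in atTop, A ∉ Bad V₁ p₁ V₀ p₀ D C n := by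
  simp only [ae_all_iff]
  intro V₁ p₁ V₀ p₀ C
  exact ae_Bad V₁ p₁ V₀ p₀ D C

theorem ncard_eq (V : Alg) (p : Polynomial ℕ) (D A : Oracle) (q : List Bool)
    {F : List Bool → List Bool} (hF : ∀ x, V.out (join A D) x = some (F x)) :
    {r : List Bool | r.length = p.eval q.length ∧ ∃ w : List Bool, w.length ≤ p.eval q.length ∧
      F (pairBits (pairBits q r) w) = [true]}.ncard = cnt V p D q A := by
  classical
  unfold cnt
  rw [← Set.ncard_coe_finset]
  congr 1
  ext r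
  simp only [Set.mem_ofPred_eq, Finset.coe_filter, mem_strs]
  refine and_congr_right fun _ => ?_
  unfold Acc
  refine exists_congr fun w => and_congr_right fun _ => ?_
  rw [hF, Option.some_inj]

theorem main (D : Oracle) : ∀ᵐ A ∂randomOracle, ∃ f : List Bool → List Bool, IsFP A f ∧
    (∀ x, (f x).length = x.length) ∧
    ∀ K : Oracle, IsAM (join A D) {q | K q = true} → IsAM (join A D) {q | K q = false} →
    ∀ C : List Bool → List Unit × List Gate, PolyTime (fun x => bits (C x)) →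
    ∀ᶠ n in atTop, (∑ x ∈ strs n, inverts f (join (join A D) K) (C (f x)) x) / 2 ^ n ≤
      (1 / 2 : ℝ) ^ (n / 16) := by
  classical
  filter_upwards [ae_all D] with A hA
  refine ⟨fn A, isFP_fn A, length_fn A, ?_⟩
  rintro K ⟨F₁, p₁, ⟨V₁, hV₁⟩, h₁⟩ ⟨F₀, p₀, ⟨V₀, hV₀⟩, h₀⟩ C hC
  have hV1 := hA V₁ p₁ V₀ p₀ ⟨C, hC⟩
  filter_upwards [hV1] with n hn
  set b := (cb ⟨C, hC⟩).eval n with hb
  have c1 : ∀ q : List Bool, (K q = true → 2 * 2 ^ p₁.eval q.length ≤ 3 * cnt V₁ p₁ D q A) ∧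
      (K q = false → 3 * cnt V₁ p₁ D q A ≤ 2 ^ p₁.eval q.length) := by
    intro q
    have := h₁ q
    rw [ncard_eq V₁ p₁ D A q hV₁] at this
    exact ⟨this.1, fun h => this.2 (by simp [h])⟩
  have c0 : ∀ q : List Bool, (K q = false → 2 * 2 ^ p₀.eval q.length ≤ 3 * cnt V₀ p₀ D q A) ∧
      (K q = true → 3 * cnt V₀ p₀ D q A ≤ 2 ^ p₀.eval q.length) := by
    intro q
    have := h₀ q
    rw [ncard_eq V₀ p₀ D A q hV₀] at this
    exact ⟨this.1, fun h => this.2 (by simp [h])⟩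
  have hG : A ∈ (sys V₁ p₁ V₀ p₀ D).G b := by
    intro q _
    have hp1 : 0 < 2 ^ p₁.eval q.length := by positivity
    have hp0 : 0 < 2 ^ p₀.eval q.length := by positivity
    rcases Bool.eq_false_or_eq_true (K q) with h | h
    · left
      have e1 := (c1 q).1 h
      have e0 := (c0 q).2 h
      constructor
      · show 10 * 2 ^ p₁.eval q.length ≤ 15 * cnt V₁ p₁ D q A
        omega
      · show ¬ (8 * 2 ^ p₀.eval q.length ≤ 15 * cnt V₀ p₀ D q A)
        omega
    · right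
      have e1 := (c1 q).2 h
      have e0 := (c0 q).1 h
      constructor
      · show 10 * 2 ^ p₀.eval q.length ≤ 15 * cnt V₀ p₀ D q A
        omega
      · show ¬ (8 * 2 ^ p₁.eval q.length ≤ 15 * cnt V₁ p₁ D q A)
        omega
  have hK : ∀ q : List Bool, q.length ≤ b → (sys V₁ p₁ V₀ p₀ D).K b A q = K q := by
    intro q hq
    have hp1 : 0 < 2 ^ p₁.eval q.length := by positivity
    unfold Sys.K
    rcases Bool.eq_false_or_eq_true (K q) with h | h
    · rw [h]
      apply decide_eq_true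
      refine ⟨hq, ?_⟩
      show 10 * 2 ^ p₁.eval q.length ≤ 15 * cnt V₁ p₁ D q A
      have e1 := (c1 q).1 h
      omega
    · rw [h]
      apply decide_eq_false
      rintro ⟨-, h2⟩
      have h3 : 10 * 2 ^ p₁.eval q.length ≤ 15 * cnt V₁ p₁ D q A := h2
      have e1 := (c1 q).2 h
      omega
  have h1 : ¬ (2 ^ n * (1 / 2 : ℝ) ^ (n / 16) < tot V₁ p₁ V₀ p₀ D ⟨C, hC⟩ b n A) :=
    fun h => hn ⟨hG, h⟩
  rw [not_lt] at h1
  rw [div_le_iff₀ (by positivity), mul_comm]
  refine le_trans (le_of_eq ?_) h1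
  unfold tot
  refine Finset.sum_congr rfl fun x hx => ?_
  apply inverts_congr (fn A) ⟨C, hC⟩
  intro u hu
  rw [length_fn, mem_strs.1 hx, ← hb] at hu
  match u, hu with
  | [], _ => rfl
  | true :: q, hu =>
    simp only [List.length_cons] at hu
    exact (hK q (by omega)).symm
  | false :: q, _ => rfl

end Pool.Agent.H822R2.OWF
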