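import Pool.Agent.H822R2.OWF.Avg
import Pool.Agent.H628R3.RO.D1

/-!
The function `fun A`, and setting its value in one place.
-/

set_option autoImplicit false

namespace Pool.Agent.H822R2.OWF

open MeasureTheory Pool.Agent.H628R3.RO Pool.Agent.H822R2.ESY

/-- the random function given by the oracle `A`: the bit number `i` of the value at `x` tells
whether the string `false :: (replicate i true ++ false :: x)` is in `A` -/
def fn (A : Oracle) (x : List Bool) : List Bool :=
  (List.range x.length).map (fun i => A (pos 0 i x))

theorem length_fn (A : Oracle) (x : List Bool) : (fn A x).length = x.length := by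
  simp [fn]

/-- the oracle `A`, changed so that the value at `x` begins with `y` -/
def setv (x y : List Bool) (A : Oracle) : Oracle := fun u =>
  if u = pos 0 (u.length - x.length - 2) x ∧ u.length - x.length - 2 < y.length
  then y.getD (u.length - x.length - 2) false else A u

theorem len_pos (i : ℕ) (x : List Bool) : (pos 0 i x).length - x.length - 2 = i := by
  rw [length_pos]
  omega

theorem setv_pos {x y : List Bool} {i : ℕ} (hi : i < y.length) (A : Oracle) :
    setv x y A (pos 0 i x) = y.getD i false := by
  unfold setv
  rw [len_pos, if_pos ⟨rfl, hi⟩]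

theorem setv_of_ne {x y u : List Bool} (A : Oracle) (h : ∀ i < y.length, u ≠ pos 0 i x) :
    setv x y A u = A u := by
  unfold setv
  rw [if_neg]
  rintro ⟨h1, h2⟩
  exact h _ h2 h1

theorem setv_nil (x : List Bool) (A : Oracle) : setv x [] A = A := by
  funext u
  exact setv_of_ne A (by simp)

theorem fn_setv {x y : List Bool} (hy : y.length = x.length) (A : Oracle) :
    fn (setv x y A) x = y := by
  unfold fn
  apply List.ext_getElem
  · simp [hy]
  · intro i h1 h2
    rw [List.getElem_map, List.getElem_range, setv_pos h2, List.getD_eq_getElem _ _ h2]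

theorem setv_pos_ne {x x' y : List Bool} (hx : x ≠ x') (i : ℕ) (A : Oracle) :
    setv x y A (pos 0 i x') = A (pos 0 i x') :=
  setv_of_ne A fun _ _ h => hx ((pos_inj h).2.2).symm

theorem fn_setv_ne {x x' y : List Bool} (hx : x ≠ x') (A : Oracle) :
    fn (setv x y A) x' = fn A x' := by
  unfold fn
  refine List.map_congr_left fun i _ => setv_pos_ne hx i A

theorem setv_setv {x y v : List Bool} (h : v.length = y.length) (A : Oracle) :
    setv x v (setv x y A) = setv x v A := by
  funext u
  by_cases h1 : ∃ i < v.length, u = pos 0 i x
  · obtain ⟨i, hi, rfl⟩ := h1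
    rw [setv_pos hi, setv_pos hi]
  · push Not at h1
    rw [setv_of_ne _ h1, setv_of_ne _ h1, setv_of_ne _ (fun i hi => h1 i (by omega))]

theorem setv_fn (x : List Bool) (A : Oracle) : setv x (fn A x) A = A := by
  funext u
  by_cases h1 : ∃ i < (fn A x).length, u = pos 0 i x
  · obtain ⟨i, hi, rfl⟩ := h1
    rw [setv_pos hi, List.getD_eq_getElem _ _ hi]
    simp [fn]
  · push Not at h1
    rw [setv_of_ne _ h1]

theorem setv_comm {x x' : List Bool} (hx : x ≠ x') (y v : List Bool) (A : Oracle) :
    setv x y (setv x' v A) = setv x' v (setv x y A) := by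
  funext u
  by_cases h1 : ∃ i < y.length, u = pos 0 i x
  · obtain ⟨i, hi, rfl⟩ := h1
    rw [setv_pos hi, setv_pos_ne hx.symm, setv_pos hi]
  · push Not at h1
    rw [setv_of_ne _ h1]
    by_cases h2 : ∃ i < v.length, u = pos 0 i x'
    · obtain ⟨i, hi, rfl⟩ := h2
      rw [setv_pos hi, setv_pos hi]
    · push Not at h2
      rw [setv_of_ne _ h2, setv_of_ne _ h2, setv_of_ne _ h1]

theorem setv_append (x y : List Bool) (b : Bool) (A : Oracle) :
    setv x (y ++ [b]) A = Function.update (setv x y A) (pos 0 y.length x) b := by
  funext u
  by_cases h0 : u = pos 0 y.length x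
  · subst h0
    rw [Function.update_self, setv_pos (by simp)]
    simp
  · rw [Function.update_of_ne h0]
    by_cases h1 : ∃ i < y.length, u = pos 0 i x
    · obtain ⟨i, hi, rfl⟩ := h1
      rw [setv_pos (by simp; omega), setv_pos hi]
      simp [List.getElem?_append_left hi]
    · push Not at h1
      rw [setv_of_ne _ h1, setv_of_ne]
      intro i hi h2
      simp only [List.length_append, List.length_cons, List.length_nil, zero_add] at hi
      by_cases h3 : i = y.length
      · exact h0 (by rw [h2, h3])
      · exact h1 i (by omega) h2

theorem setv_upd (x y : List Bool) (b : Bool) (A : Oracle) :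
    setv x y (Function.update A (pos 0 y.length x) b) =
      Function.update (setv x y A) (pos 0 y.length x) b := by
  funext u
  by_cases h0 : u = pos 0 y.length x
  · subst h0
    rw [Function.update_self, setv_of_ne, Function.update_self]
    intro i hi h
    have := (pos_inj h).2.1
    omega
  · rw [Function.update_of_ne h0]
    by_cases h1 : ∃ i < y.length, u = pos 0 i x
    · obtain ⟨i, hi, rfl⟩ := h1
      rw [setv_pos hi, setv_pos hi]
    · push Not at h1
      rw [setv_of_ne _ h1, setv_of_ne _ h1, Function.update_of_ne h0]

theorem sum_strs_succ {M : Type*} [AddCommMonoid M] (m : ℕ) (F : List Bool → M) :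
    ∑ y ∈ strs (m + 1), F y = ∑ y ∈ strs m, (F (y ++ [true]) + F (y ++ [false])) := by
  classical
  have h1 : strs (m + 1) = (strs m).image (fun y => y ++ [true]) ∪
      (strs m).image (fun y => y ++ [false]) := by
    ext z
    simp only [Finset.mem_union, Finset.mem_image, mem_strs]
    constructor
    · intro hz
      have hne : z ≠ [] := by
        rintro rfl
        simp at hz
      have h2 := List.dropLast_append_getLast hne
      have h3 : z.dropLast.length = m := by simp [hz]
      rcases Bool.eq_false_or_eq_true (z.getLast hne) with h4 | h4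
      · exact Or.inl ⟨z.dropLast, h3, by rw [← h4, h2]⟩
      · exact Or.inr ⟨z.dropLast, h3, by rw [← h4, h2]⟩
    · rintro (⟨y, hy, rfl⟩ | ⟨y, hy, rfl⟩)
      · simp [hy]
      · simp [hy]
  have h2 : Disjoint ((strs m).image (fun y => y ++ [true]))
      ((strs m).image (fun y => y ++ [false])) := by
    rw [Finset.disjoint_left]
    intro z hz hz'
    obtain ⟨y, -, rfl⟩ := Finset.mem_image.1 hz
    obtain ⟨y', -, h⟩ := Finset.mem_image.1 hz'
    have := (List.append_inj' h rfl).2
    simp at this
  rw [h1, Finset.sum_union h2, Finset.sum_image, Finset.sum_image, ← Finset.sum_add_distrib]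
  · intro a _ b _ h
    exact List.append_cancel_right h
  · intro a _ b _ h
    exact List.append_cancel_right h

/-- tossing the coins of one value again -/
theorem avg_setv (K : Finset (List Bool)) (x : List Bool) (m : ℕ)
    (hK : ∀ i < m, pos 0 i x ∈ K) (Φ : Oracle → ℝ) :
    2 ^ m * avg K Φ = ∑ y ∈ strs m, avg K (fun A => Φ (setv x y A)) := by
  induction m with
  | zero =>
    have : strs 0 = {[]} := by
      ext z
      simp [mem_strs]
    rw [this, Finset.sum_singleton]
    simp [setv_nil]
  | succ m ih =>
    have h1 := ih fun i hi => hK i (by omega)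
    rw [sum_strs_succ, pow_succ, mul_comm (2 ^ m : ℝ) 2, mul_assoc, h1, Finset.mul_sum]
    refine Finset.sum_congr rfl fun y hy => ?_
    have hy' : y.length = m := mem_strs.1 hy
    rw [avg_upd K (hK m (Nat.lt_succ_self m)) (fun A => Φ (setv x y A))]
    have h2 : ∀ b : Bool, (fun A => Φ (setv x y (Function.update A (pos 0 m x) b))) =
        fun A => Φ (setv x (y ++ [b]) A) := by
      intro b
      funext A
      have := setv_upd x y b A
      rw [hy'] at this
      rw [this, setv_append, hy']
    rw [h2, h2]
    ring

end Pool.Agent.H822R2.OWF
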